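import Pool.Agent.H236N5.Band

set_option autoImplicit false

open Set Filter Topology unitInterval

namespace Pool.Agent.Helper331

/-- counting homomorphisms to a group of order two. -/
theorem card_hom_fin {G : Type*} [Group G] {ι : Type} [Fintype ι] [DecidableEq ι] (l : ι → G)
    (upper : ∀ α : G →* ℤˣ, (∀ i, α (l i) = 1) → α = 1)
    (β : ι → (G →* ℤˣ)) (hβ : ∀ i j, β i (l j) = if i = j then -1 else 1) :
    Nat.card (G →* Multiplicative (ZMod 2)) = 2 ^ Fintype.card ι := by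
  have e1 : ℤˣ ≃* Multiplicative (ZMod 2) := by
    haveI : Fact (Nat.Prime 2) := ⟨Nat.prime_two⟩
    apply mulEquivOfPrimeCardEq (p := 2)
    · simp
    · simp
  have e2 : (G →* ℤˣ) ≃ (G →* Multiplicative (ZMod 2)) :=
    { toFun := fun α => e1.toMonoidHom.comp α
      invFun := fun α => e1.symm.toMonoidHom.comp α
      left_inv := fun α => by ext g; simp
      right_inv := fun α => by ext g; simp }
  rw [← Nat.card_congr e2]
  let ev : (G →* ℤˣ) → (ι → ℤˣ) := fun α i => α (l i)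
  have hinj : Function.Injective ev := by
    intro α γ h
    have h' : ∀ i, α (l i) = γ (l i) := fun i => congrFun h i
    have := upper (α * γ⁻¹) (fun i => by simp [h' i])
    rwa [mul_inv_eq_one] at this
  have hsurj : Function.Surjective ev := by
    intro x
    refine ⟨∏ i, (if x i = -1 then β i else 1), ?_⟩
    funext j
    simp only [ev]
    rw [MonoidHom.finsetProd_apply, Finset.prod_eq_single j]
    · rcases Int.units_eq_one_or (x j) with h | h
      · rw [h]
        have : ¬ ((1 : ℤˣ) = -1) := by decide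
        rw [if_neg this]; rfl
      · rw [h, if_pos rfl, hβ, if_pos rfl]
    · intro i _ hij
      split_ifs
      · rw [hβ, if_neg hij]
      · rfl
    · intro h; exact absurd (Finset.mem_univ j) h
  rw [Nat.card_congr (Equiv.ofBijective ev ⟨hinj, hsurj⟩)]
  simp

namespace Wt

variable {X A : Type*} [TopologicalSpace X] [CommGroup A] (W : Wt X A)

/-- compatible potentials on an open cover -/
theorem many_potentials {ι : Type*} {U : ι → Set X} (hU : ∀ i, IsOpen (U i))
    (hcov : ∀ y, ∃ i, y ∈ U i) (f : ι → X → A)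
    (hf : ∀ i (a b : X) (p : Path a b), (∀ t, p t ∈ U i) → W.w p = (f i a)⁻¹ * f i b)
    (hcomp : ∀ i j y, y ∈ U i → y ∈ U j → f i y = f j y) {x0 : X} (l : Path x0 x0) :
    W.w l = 1 := by
  classical
  set F : X → A := fun y => f (hcov y).choose y with hF
  have hFU : ∀ i, ∀ y ∈ U i, F y = f i y := fun i y hy =>
    hcomp _ _ _ (hcov y).choose_spec hy
  have key := W.of_local (U := univ) (f := F) (p := l) ?_ (fun t => trivial)
  · rw [key]; simp
  · intro y _
    obtain ⟨i, hi⟩ := hcov y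
    refine ⟨U i, (hU i).mem_nhds hi, fun a b p hp => ?_⟩
    have ha : a ∈ U i := by simpa using hp 0
    have hb : b ∈ U i := by simpa using hp 1
    rw [hf i a b p hp, hFU i a ha, hFU i b hb]

/-- One outer set and four inner sets. -/
theorem five_potentials {U0 : Set X} {U : Fin 4 → Set X} (h0 : IsOpen U0)
    (hU : ∀ k, IsOpen (U k)) (hcov : ∀ y, y ∈ U0 ∨ ∃ k, y ∈ U k) {x0 : X}
    (f0 : X → A) (f : Fin 4 → X → A)
    (hf0 : ∀ (a b : X) (p : Path a b), (∀ t, p t ∈ U0) → W.w p = (f0 a)⁻¹ * f0 b)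
    (hf : ∀ k (a b : X) (p : Path a b), (∀ t, p t ∈ U k) → W.w p = (f k a)⁻¹ * f k b)
    (hjk : ∀ j k, j ≠ k → ∀ y, y ∈ U j → y ∈ U k → ∃ p : Path x0 y, ∀ t, p t ∈ U j ∩ U k)
    (h0k : ∀ k, ∀ y y', y ∈ U0 ∩ U k → y' ∈ U0 ∩ U k → ∃ p : Path y y', ∀ t, p t ∈ U0 ∩ U k)
    {z0 z1 z2 : X} (hz0 : z0 ∈ U0 ∧ z0 ∈ U 0 ∧ z0 ∈ U 1) (hz1 : z1 ∈ U0 ∧ z1 ∈ U 1 ∧ z1 ∈ U 2)
    (hz2 : z2 ∈ U0 ∧ z2 ∈ U 2 ∧ z2 ∈ U 3) (l : Path x0 x0) : W.w l = 1 := by
  set g : Fin 4 → X → A := fun k y => (f k x0)⁻¹ * f k y with hg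
  have gjk : ∀ j k y, y ∈ U j → y ∈ U k → g j y = g k y := by
    intro j k y hj hk
    by_cases h : j = k
    · rw [h]
    · obtain ⟨p, hp⟩ := hjk j k h y hj hk
      simp only [hg]
      rw [← hf j _ _ p fun t => (hp t).1, ← hf k _ _ p fun t => (hp t).2]
  set g0 : X → A := fun y => g 0 z0 * (f0 z0)⁻¹ * f0 y with hg0
  have step : ∀ k w, w ∈ U0 → w ∈ U k → g0 w = g k w → ∀ y, y ∈ U0 → y ∈ U k → g0 y = g k y := by
    intro k w hw0 hwk hw y hy0 hyk
    obtain ⟨p, hp⟩ := h0k k w y ⟨hw0, hwk⟩ ⟨hy0, hyk⟩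
    have e : (f0 w)⁻¹ * f0 y = (f k w)⁻¹ * f k y := by
      rw [← hf0 _ _ p fun t => (hp t).1, ← hf k _ _ p fun t => (hp t).2]
    have e1 : g0 y = g0 w * ((f0 w)⁻¹ * f0 y) := by simp only [hg0]; group
    have e2 : g k y = g k w * ((f k w)⁻¹ * f k y) := by simp only [hg]; group
    rw [e1, e2, e, hw]
  have k0 := step 0 z0 hz0.1 hz0.2.1 (by simp only [hg0]; group)
  have k1 := step 1 z0 hz0.1 hz0.2.2 (by
    rw [k0 z0 hz0.1 hz0.2.1]; exact gjk _ _ _ hz0.2.1 hz0.2.2)
  have k2 := step 2 z1 hz1.1 hz1.2.2 (by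
    rw [k1 z1 hz1.1 hz1.2.1]; exact gjk _ _ _ hz1.2.1 hz1.2.2)
  have k3 := step 3 z2 hz2.1 hz2.2.2 (by
    rw [k2 z2 hz2.1 hz2.2.1]; exact gjk _ _ _ hz2.2.1 hz2.2.2)
  have kall : ∀ k y, y ∈ U0 → y ∈ U k → g0 y = g k y := by
    intro k
    fin_cases k
    · exact k0
    · exact k1
    · exact k2
    · exact k3
  refine W.many_potentials (ι := Option (Fin 4)) (U := fun i => i.elim U0 U) ?_ ?_
    (fun i => i.elim g0 g) ?_ ?_ l
  · rintro (_ | k)
    · exact h0
    · exact hU k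
  · intro y
    rcases hcov y with h | ⟨k, h⟩
    · exact ⟨none, h⟩
    · exact ⟨some k, h⟩
  · rintro (_ | k) a b p hp
    · rw [hf0 a b p hp]
      change _ = (g0 a)⁻¹ * g0 b
      simp only [hg0]; group
    · rw [hf k a b p hp]
      change _ = (g k a)⁻¹ * g k b
      simp only [hg]; group
  · rintro (_ | i) (_ | j) y hi hj
    · rfl
    · exact kall j y hi hj
    · exact (kall i y hj hi).symm
    · exact gjk i j y hi hj

end Wt

/-- evaluation of the weight of a double relation on a loop at an arbitrary point. -/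
theorem wt_eval {X V : Type*} [TopologicalSpace X] [PathConnectedSpace X] [NormedAddCommGroup V]
    [NormedSpace ℝ V] {E : Set (X × V)} (hE : DoubleRel E) {x0 : X}
    {α : FundamentalGroup X x0 →* ℤˣ}
    (hα : ∀ (l : Path x0 x0) (u : I → V), Continuous u → (∀ t, (l t, u t) ∈ E) →
      (u 1 = u 0 → α (FundamentalGroup.fromPath (Path.Homotopic.Quotient.mk l)) = 1) ∧
      (u 1 = -u 0 → α (FundamentalGroup.fromPath (Path.Homotopic.Quotient.mk l)) = -1))
    {y : X} (l : Path y y) (u : I → V) (hu : Continuous u) (hlu : ∀ t, (l t, u t) ∈ E) :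
    (u 1 = u 0 → (wtOfHom x0 α).w l = 1) ∧ (u 1 = -u 0 → (wtOfHom x0 α).w l = -1) := by
  set γ := PathConnectedSpace.somePath x0 y with hγ
  have cov : IsCoveringMap (fun e : E => e.1.1) := hE.isCoveringMap
  have h0 : (y, u 0) ∈ E := by simpa using hlu 0
  have hneg : ∀ (x : X) (v : V), (x, v) ∈ E → (x, -v) ∈ E := by
    intro x v hv
    obtain ⟨W, _, hxW, g, _, hEW⟩ := hE x
    obtain ⟨_, h2⟩ := hEW x hxW
    rw [h2] at hv ⊢
    rcases hv with h | h
    · right; rw [h]
    · left; rw [h, neg_neg]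
  set δ := cov.liftPath (γ.symm : C(I, X)) ⟨(y, u 0), h0⟩ (by simp) with hδ
  have hδl := cov.liftPath_lifts (γ.symm : C(I, X)) ⟨(y, u 0), h0⟩ (by simp)
  have hδ0 := cov.liftPath_zero (γ.symm : C(I, X)) ⟨(y, u 0), h0⟩ (by simp)
  have hl1 : ∀ t, (δ t).1.1 = γ.symm t := fun t => congrFun hδl t
  have hv0 : (δ 0).1.2 = u 0 := congrArg (fun e : E => e.1.2) hδ0
  have hvc : Continuous (fun t => (δ t).1.2) :=
    (continuous_snd.comp continuous_subtype_val).comp δ.continuous
  have hvE : ∀ t, (γ.symm t, (δ t).1.2) ∈ E := by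
    intro t
    rw [← hl1 t]
    exact (δ t).2
  let P1 : Path ((δ 1).1.2) (u 0) :=
    { toFun := fun t => (δ (σ t)).1.2
      continuous_toFun := hvc.comp unitInterval.continuous_symm
      source' := by simp
      target' := by simp [hv0] }
  have hP1 : ∀ t, (γ t, P1 t) ∈ E := by
    intro t
    have h3 := hvE (σ t)
    have h4 : γ.symm (σ t) = γ t := by simp
    rw [h4] at h3
    exact h3
  have main : ∀ s : ℝ, (s = 1 ∨ s = -1) → u 1 = s • u 0 → ∃ U : I → V, Continuous U ∧
      (∀ t, (((γ.trans l).trans γ.symm) t, U t) ∈ E) ∧ U 0 = (δ 1).1.2 ∧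
      U 1 = s • (δ 1).1.2 := by
    intro s hs hus
    let P2 : Path (u 0) (s • u 0) :=
      { toFun := u
        continuous_toFun := hu
        source' := rfl
        target' := hus }
    let P3 : Path (s • u 0) (s • (δ 1).1.2) :=
      { toFun := fun t => s • (δ t).1.2
        continuous_toFun := hvc.const_smul s
        source' := by simp only [hv0]
        target' := rfl }
    have hP3 : ∀ t, (γ.symm t, P3 t) ∈ E := by
      intro t
      change (γ.symm t, s • (δ t).1.2) ∈ E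
      rcases hs with h | h
      · rw [h, one_smul]; exact hvE t
      · rw [h, neg_one_smul]; exact hneg _ _ (hvE t)
    refine ⟨(P1.trans P2).trans P3, Path.continuous _, ?_, Path.source _, Path.target _⟩
    intro t
    rw [Path.trans_apply, Path.trans_apply]
    split_ifs with h1
    · rw [Path.trans_apply, Path.trans_apply]
      split_ifs with h2
      · exact hP1 _
      · exact hlu _
    · exact hP3 _
  have hw : (wtOfHom x0 α).w l
      = α (FundamentalGroup.fromPath (Path.Homotopic.Quotient.mk ((γ.trans l).trans γ.symm))) := rfl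
  rw [hw]
  constructor
  · intro h
    obtain ⟨U, hUc, hUE, hU0, hU1⟩ := main 1 (Or.inl rfl) (by rw [one_smul]; exact h)
    exact (hα _ U hUc hUE).1 (by rw [hU1, hU0, one_smul])
  · intro h
    obtain ⟨U, hUc, hUE, hU0, hU1⟩ := main (-1) (Or.inr rfl) (by rw [neg_one_smul]; exact h)
    exact (hα _ U hUc hUE).2 (by rw [hU1, hU0, neg_one_smul])

/-- evaluation of the weight of a double relation on a band. -/
theorem band_eval {X V S : Type*} [TopologicalSpace X] [PathConnectedSpace X]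
    [NormedAddCommGroup V] [NormedSpace ℝ V]
    [TopologicalSpace S] {E : Set (X × V)} (hE : DoubleRel E) {x0 : X}
    {α : FundamentalGroup X x0 →* ℤˣ}
    (hα : ∀ (l : Path x0 x0) (u : I → V), Continuous u → (∀ t, (l t, u t) ∈ E) →
      (u 1 = u 0 → α (FundamentalGroup.fromPath (Path.Homotopic.Quotient.mk l)) = 1) ∧
      (u 1 = -u 0 → α (FundamentalGroup.fromPath (Path.Homotopic.Quotient.mk l)) = -1))
    {Φ : S → X} (hΦ : Continuous Φ) {s0 s1 : S} (q : Path s0 s1) (h1 : Φ s1 = Φ s0)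
    {u : S → V} (hu : Continuous u) (hEu : ∀ s, (Φ s, u s) ∈ E) :
    (u s1 = u s0 → (wtOfHom x0 α).w (q.map hΦ) = 1) ∧
    (u s1 = -u s0 → (wtOfHom x0 α).w (q.map hΦ) = -1) := by
  have := wt_eval hE hα ((q.map hΦ).cast rfl h1.symm) (fun t => u (q t)) (hu.comp q.continuous)
    (fun t => hEu (q t))
  rw [Wt.cast] at this
  simpa using this

end Pool.Agent.Helper331
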