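import Pool.Agent.H236N5.Dbl
import Pool.Agent.H236N5.Pot

set_option autoImplicit false

open Set Filter Topology unitInterval
open scoped ContDiff

namespace Pool.Agent.Helper331

/-- the class of a path closed up through the chosen paths from the base point -/
noncomputable def lpc {X : Type*} [TopologicalSpace X] [PathConnectedSpace X] (x0 : X) {a b : X}
    (p : Path a b) : FundamentalGroup X x0 :=
  FundamentalGroup.fromPath
    (((Path.Homotopic.Quotient.mk (PathConnectedSpace.somePath x0 a)).trans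
      (Path.Homotopic.Quotient.mk p)).trans
      (Path.Homotopic.Quotient.mk (PathConnectedSpace.somePath x0 b)).symm)

theorem wtOfHom_eq {X A : Type*} [TopologicalSpace X] [PathConnectedSpace X] [CommGroup A]
    (x0 : X) (α : FundamentalGroup X x0 →* A) {a b : X} (p : Path a b) :
    (wtOfHom x0 α).w p = α (lpc x0 p) := rfl

namespace N3D

variable (D : N3D)

theorem cc_eq (k : Fin 4) : D.cc k = D.p * Complex.I ^ (k : ℕ) := rfl

theorem norm_I_pow (k : Fin 4) : ‖Complex.I ^ (k : ℕ)‖ = 1 := by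
  rw [norm_pow, Complex.norm_I, one_pow]

theorem exactR15 (k : Fin 4) {z : ℂ} (hz : z ∈ R15 D.p (D.cc k)) :
    (z, z^2) ∈ D.M5 ∧ (z, z^2) ∈ D.W0 ∧ (z, z^2) ∈ D.Wc5 (D.cc k) := by
  have hp := D.hp
  have h1 := D.norm_le_of_near5 (D.norm_cc k) hz.2.le
  obtain ⟨x, hx, hx2, -⟩ := D.exact0 hz.1.le (by linarith)
  refine ⟨Or.inl ⟨x, hx, hx2⟩, ?_, ?_, hz.2⟩
  · change 36/25 * D.p^2 < ‖z^2‖
    rw [norm_pow]
    have := hz.1
    nlinarith
  · simp only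
    rw [norm_pow]
    have := norm_nonneg z
    nlinarith

theorem far5 {j k : Fin 4} (hjk : j ≠ k) {z : ℂ} (hz : ‖z - D.cc k‖ < 5/4 * D.p) :
    D.p/10 ≤ ‖z - D.cc j‖ := by
  have hp := D.hp
  have h2 := D.cc_sub hjk
  have h2' := norm_sub_le (z - D.cc k) (z - D.cc j)
  have e' : (z - D.cc k) - (z - D.cc j) = D.cc j - D.cc k := by ring
  rw [e'] at h2'
  linarith

theorem exactR25 {j k : Fin 4} (hjk : j ≠ k) {z : ℂ} (hz : z ∈ R25 D.p (D.cc j) (D.cc k)) :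
    (z, z^2) ∈ D.M5 ∧ (z, z^2) ∈ D.Wc5 (D.cc j) ∧ (z, z^2) ∈ D.Wc5 (D.cc k) := by
  have hp := D.hp
  have h1 := D.norm_le_of_near5 (D.norm_cc j) hz.1.le
  have h5 : ‖z^2‖ < 9 * D.p^2 := by
    rw [norm_pow]
    have := norm_nonneg z
    nlinarith
  refine ⟨?_, ⟨h5, hz.1⟩, ⟨h5, hz.2⟩⟩
  rw [← D.exactc5 (c := D.cc j) (z := z) (D.far5 hjk hz.2)]
  apply D.Pc5_mem j
  simp only
  rw [abs_of_nonneg (norm_nonneg _)]; exact hz.1.le

theorem zero_R25 (j k : Fin 4) : (0 : ℂ) ∈ R25 D.p (D.cc j) (D.cc k) := by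
  have hp := D.hp
  constructor
  · rw [zero_sub, norm_neg, D.norm_cc]; linarith
  · rw [zero_sub, norm_neg, D.norm_cc]; linarith

/-- base point -/
noncomputable def xb5 : D.M5 :=
  ⟨((0 : ℂ), (0 : ℂ)^2), (D.exactR25 (j := 0) (k := 1) (by decide) (D.zero_R25 0 1)).1⟩

theorem path_of5 {R : Set ℂ} (hR : ∀ z ∈ R, (z, z^2) ∈ D.M5) {z w : ℂ} (h : JoinedIn R z w)
    {x y : D.M5} (hx : (x : ℂ × ℂ) = (z, z^2)) (hy : (y : ℂ × ℂ) = (w, w^2)) :
    ∃ p : Path x y, ∀ t, ∃ v ∈ R, (p t : ℂ × ℂ) = (v, v^2) := by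
  obtain ⟨γ, hγ⟩ := h
  refine ⟨{ toFun := fun t => ⟨(γ t, (γ t)^2), hR _ (hγ t)⟩
            continuous_toFun := ?_
            source' := ?_
            target' := ?_ }, fun t => ⟨γ t, hγ t, rfl⟩⟩
  · apply Continuous.subtype_mk
    exact γ.continuous.prodMk (γ.continuous.pow 2)
  · apply Subtype.ext
    simp only [γ.source, hx]
  · apply Subtype.ext
    simp only [γ.target, hy]

theorem overlap15 (k : Fin 4) (y y' : D.M5)
    (hy : y ∈ {y : D.M5 | (y : ℂ × ℂ) ∈ D.W0} ∩ {y : D.M5 | (y : ℂ × ℂ) ∈ D.Wc5 (D.cc k)})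
    (hy' : y' ∈ {y : D.M5 | (y : ℂ × ℂ) ∈ D.W0} ∩ {y : D.M5 | (y : ℂ × ℂ) ∈ D.Wc5 (D.cc k)}) :
    ∃ p : Path y y', ∀ t, p t ∈ {y : D.M5 | (y : ℂ × ℂ) ∈ D.W0} ∩
      {y : D.M5 | (y : ℂ × ℂ) ∈ D.Wc5 (D.cc k)} := by
  have hp := D.hp
  have key : ∀ y : D.M5, y ∈ {y : D.M5 | (y : ℂ × ℂ) ∈ D.W0} ∩
      {y : D.M5 | (y : ℂ × ℂ) ∈ D.Wc5 (D.cc k)} →
      (y : ℂ × ℂ).2 = (y : ℂ × ℂ).1^2 ∧ (y : ℂ × ℂ).1 ∈ R15 D.p (D.cc k) := by
    intro y hy
    have h0 : (y : ℂ × ℂ) ∈ D.W0 := hy.1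
    have h1 : (y : ℂ × ℂ) ∈ D.Wc5 (D.cc k) := hy.2
    have he := D.exact_low5 y.2 h0 h1.1
    refine ⟨he, ?_, h1.2⟩
    have h2 : 36/25 * D.p^2 < ‖(y : ℂ × ℂ).2‖ := h0
    rw [he, norm_pow] at h2
    apply lt_of_pow_lt_pow_left₀ 2 (norm_nonneg _)
    nlinarith
  obtain ⟨he, hR⟩ := key y hy
  obtain ⟨he', hR'⟩ := key y' hy'
  have hj := R15_joined hp (norm_I_pow k) hR hR'
  obtain ⟨p, hpp⟩ := D.path_of5 (fun z hz => (D.exactR15 k hz).1) hj (x := y) (y := y')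
    (Prod.ext rfl he) (Prod.ext rfl he')
  refine ⟨p, fun t => ?_⟩
  obtain ⟨v, hv, hvp⟩ := hpp t
  constructor
  · change (p t : ℂ × ℂ) ∈ D.W0
    rw [hvp]; exact (D.exactR15 k hv).2.1
  · change (p t : ℂ × ℂ) ∈ D.Wc5 (D.cc k)
    rw [hvp]; exact (D.exactR15 k hv).2.2

theorem overlap25 (j k : Fin 4) (hjk : j ≠ k) (y : D.M5)
    (h0 : y ∈ {y : D.M5 | (y : ℂ × ℂ) ∈ D.Wc5 (D.cc j)})
    (h1 : y ∈ {y : D.M5 | (y : ℂ × ℂ) ∈ D.Wc5 (D.cc k)}) :
    ∃ p : Path D.xb5 y, ∀ t, p t ∈ {y : D.M5 | (y : ℂ × ℂ) ∈ D.Wc5 (D.cc j)} ∩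
      {y : D.M5 | (y : ℂ × ℂ) ∈ D.Wc5 (D.cc k)} := by
  have hp := D.hp
  have h0' : (y : ℂ × ℂ) ∈ D.Wc5 (D.cc j) := h0
  have h1' : (y : ℂ × ℂ) ∈ D.Wc5 (D.cc k) := h1
  have hR : (y : ℂ × ℂ).1 ∈ R25 D.p (D.cc j) (D.cc k) := ⟨h0'.2, h1'.2⟩
  have he : (y : ℂ × ℂ).2 = (y : ℂ × ℂ).1^2 := by
    obtain ⟨x, hx, hxy⟩ := (D.mem_Wc5_iff j _).1 ⟨y.2, h0'⟩
    have h4 := D.Pc5_norm (D.cc j) x
    rw [hxy] at h4
    have h5 : D.p/10 ≤ |x.2| := by rw [← h4]; exact D.far5 hjk h1'.2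
    have h6 := D.Pc5_exact (c := D.cc j) h5
    rw [hxy] at h6
    exact h6
  have hj := R25_joined (D.zero_R25 j k) hR
  obtain ⟨p, hpp⟩ := D.path_of5 (fun z hz => (D.exactR25 hjk hz).1) hj (x := D.xb5) (y := y) rfl
    (Prod.ext rfl he)
  refine ⟨p, fun t => ?_⟩
  obtain ⟨v, hv, hvp⟩ := hpp t
  constructor
  · change (p t : ℂ × ℂ) ∈ D.Wc5 (D.cc j)
    rw [hvp]; exact (D.exactR25 hjk hv).2.1
  · change (p t : ℂ × ℂ) ∈ D.Wc5 (D.cc k)
    rw [hvp]; exact (D.exactR25 hjk hv).2.2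

theorem hM05 : ∀ x : ℝ × ℝ, |x.2| < D.r0 → Ph 0 A0 D.B0 x ∈ D.M5 := fun _ hx =>
  D.P0_mem5 (le_of_lt hx)

theorem hMc5 (k : Fin 4) : ∀ x : ℝ × ℝ, |x.2| < 5/4 * D.p →
    Ph5 (D.cc k) (fun a => a) D.g x ∈ D.M5 := fun _ hx => D.Pc5_mem k (le_of_lt hx)

/-- outer band -/
noncomputable def b05 : St D.r0 → D.M5 := bm 0 A0 D.B0 D.r0 D.M5 D.hM05

/-- crosscap band -/
noncomputable def bc5 (k : Fin 4) : St (5/4 * D.p) → D.M5 :=
  bm5 (D.cc k) (fun a => a) D.g (5/4 * D.p) D.M5 (D.hMc5 k)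

theorem b05_continuous : Continuous D.b05 := bm_continuous D.prof0 D.hM05

theorem bc5_continuous (k : Fin 4) : Continuous (D.bc5 k) :=
  bm_continuous5 D.profc5 (D.hMc5 k)

theorem b05_tau (s : St D.r0) : D.b05 (tau _ s) = D.b05 s := bm_tau D.prof0 D.hM05 s

theorem bc5_tau (k : Fin 4) (s : St (5/4 * D.p)) : D.bc5 k (tau _ s) = D.bc5 k s :=
  bm_tau5 D.profc5 (D.hMc5 k) s

theorem joined_W0 (y y' : D.M5) (h : (y : ℂ × ℂ) ∈ D.W0) (h' : (y' : ℂ × ℂ) ∈ D.W0) :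
    Joined y y' := by
  have i0 : PathConnectedSpace (St D.r0) := by
    have := St_simply D.r0_pos; infer_instance
  obtain ⟨x, hx, hxy⟩ := (D.mem_W05_iff _).1 ⟨y.2, h⟩
  obtain ⟨x', hx', hxy'⟩ := (D.mem_W05_iff _).1 ⟨y'.2, h'⟩
  have e : D.b05 ⟨x, hx⟩ = y := Subtype.ext hxy
  have e' : D.b05 ⟨x', hx'⟩ = y' := Subtype.ext hxy'
  rw [← e, ← e']
  exact ⟨(PathConnectedSpace.somePath _ _).map D.b05_continuous⟩

theorem joined_Wc (k : Fin 4) (y y' : D.M5) (h : (y : ℂ × ℂ) ∈ D.Wc5 (D.cc k))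
    (h' : (y' : ℂ × ℂ) ∈ D.Wc5 (D.cc k)) : Joined y y' := by
  have i0 : PathConnectedSpace (St (5/4 * D.p)) := by
    have := St_simply D.profc5.rho_pos; infer_instance
  obtain ⟨x, hx, hxy⟩ := (D.mem_Wc5_iff k _).1 ⟨y.2, h⟩
  obtain ⟨x', hx', hxy'⟩ := (D.mem_Wc5_iff k _).1 ⟨y'.2, h'⟩
  have e : D.bc5 k ⟨x, hx⟩ = y := Subtype.ext hxy
  have e' : D.bc5 k ⟨x', hx'⟩ = y' := Subtype.ext hxy'
  rw [← e, ← e']
  exact ⟨(PathConnectedSpace.somePath _ _).map (D.bc5_continuous k)⟩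

theorem M5_pathConnected : PathConnectedSpace D.M5 := by
  have hb : ((D.b05 ⟨(0, 0), by simpa using D.r0_pos⟩ : D.M5) : ℂ × ℂ) ∈ D.W0 :=
    ((D.mem_W05_iff _).2 ⟨(0, 0), by simpa using D.r0_pos, rfl⟩).2
  have key : ∀ y : D.M5, Joined (D.b05 ⟨(0, 0), by simpa using D.r0_pos⟩) y := by
    intro y
    rcases D.cover5 y.2 with h | ⟨k, h⟩
    · exact D.joined_W0 _ _ hb h
    · obtain ⟨z, hz1, hz2, hz3, hz4⟩ := D.exists_crescent k
      obtain ⟨h1, h2, h3⟩ := D.exactR15 k (z := z) ⟨hz1, hz4⟩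
      exact (D.joined_W0 _ ⟨(z, z^2), h1⟩ hb h2).trans (D.joined_Wc k ⟨(z, z^2), h1⟩ y h3 h)
  exact { nonempty := ⟨D.xb5⟩, joined := fun x y => (key x).symm.trans (key y) }

/-! ### lifts -/

/-- lift of the outer band to `Ec5` -/
theorem lift_Ec5_b0 (k : Fin 4) : ∃ u : St D.r0 → ℂ, Continuous u ∧
    (∀ s, (D.b05 s, u s) ∈ D.Ec5 k) ∧ ∀ s, u (tau _ s) = -u s := by
  refine ⟨fun x => cis x.1.1 * rt (cis (-(2 * x.1.1)) * Om5 (D.cc k) (D.P0 x.1)), ?_, ?_, ?_⟩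
  · have h1 : Continuous (fun x : St D.r0 => cis x.1.1) := cis_continuous.comp (by fun_prop)
    have h2 : Continuous (fun x : St D.r0 => cis (-(2 * x.1.1)) * Om5 (D.cc k) (D.P0 x.1)) :=
      (cis_continuous.comp (by fun_prop)).mul
        ((Om5_continuous (D.cc k)).comp (D.P0_continuous.comp continuous_subtype_val))
    apply h1.mul
    rw [continuous_iff_continuousAt]
    intro x
    exact (rt_continuousAt (D.outer_slit5 (D.norm_cc k) x.2)).comp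
      (f := fun x : St D.r0 => cis (-(2 * x.1.1)) * Om5 (D.cc k) (D.P0 x.1)) h2.continuousAt
  · intro x
    change (cis x.1.1 * rt (cis (-(2 * x.1.1)) * Om5 (D.cc k) (D.P0 x.1)))^2
      = Om5 (D.cc k) (D.P0 x.1)
    rw [mul_pow, rt_sq, ← cis_two_mul, ← mul_assoc, mul_comm (cis (2 * x.1.1)), cis_neg_mul, one_mul]
  · intro x
    have h1 : D.P0 (tau _ x).1 = D.P0 x.1 := D.prof0.flip x.1
    have h2 : (tau _ x).1.1 = x.1.1 + Real.pi := rfl
    simp only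
    rw [h1, h2, cis_add_pi]
    have h3 : cis (-(2 * (x.1.1 + Real.pi))) = cis (-(2 * x.1.1)) := by
      have e : -(2 * x.1.1) = -(2 * (x.1.1 + Real.pi)) + Real.pi + Real.pi := by ring
      rw [e, cis_add_pi, cis_add_pi, neg_neg]
    rw [h3]; ring

theorem lift_Ec5_bc (k : Fin 4) : ∃ u : St (5/4 * D.p) → ℂ, Continuous u ∧
    (∀ s, (D.bc5 k s, u s) ∈ D.Ec5 k) ∧ ∀ s, u (tau _ s) = -u s := by
  refine ⟨fun x => (Real.sqrt (D.g x.1.2) : ℂ) * cis x.1.1, ?_, ?_, ?_⟩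
  · have h1 : Continuous (fun x : St (5/4 * D.p) => cis x.1.1) := cis_continuous.comp (by fun_prop)
    have h2 : Continuous (fun x : St (5/4 * D.p) => (Real.sqrt (D.g x.1.2) : ℂ)) := by
      apply Complex.continuous_ofReal.comp
      apply Real.continuous_sqrt.comp
      exact D.hgs.continuous.comp (by fun_prop)
    exact h2.mul h1
  · intro x
    change ((Real.sqrt (D.g x.1.2) : ℂ) * cis x.1.1)^2
      = Om5 (D.cc k) (Ph5 (D.cc k) (fun a => a) D.g x.1)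
    rw [Om5_Ph, mul_pow, ← cis_two_mul]
    congr 1
    have := Real.sq_sqrt (D.hgp x.1.2).le
    exact_mod_cast this
  · intro x
    have h2 : (tau _ x).1.1 = x.1.1 + Real.pi := rfl
    have h3 : (tau _ x).1.2 = -x.1.2 := rfl
    simp only
    rw [h2, h3, D.hge, cis_add_pi]
    ring

theorem lift_Ec5_bother {j k : Fin 4} (hjk : j ≠ k) :
    ∃ u : St (5/4 * D.p) → ℂ, Continuous u ∧
    (∀ s, (D.bc5 j s, u s) ∈ D.Ec5 k) ∧ ∀ s, u (tau _ s) = u s := by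
  have hne := fun x : St (5/4 * D.p) => (D.other_slit5 hjk x.2).1
  refine ⟨fun x => ((D.Pc5 (D.cc j) x.1).1 - D.cc k) *
    rt (Om5 (D.cc k) (D.Pc5 (D.cc j) x.1) / ((D.Pc5 (D.cc j) x.1).1 - D.cc k)^2), ?_, ?_, ?_⟩
  · have h0 : Continuous (fun x : St (5/4 * D.p) => D.Pc5 (D.cc j) x.1) :=
      (D.Pc5_continuous _).comp continuous_subtype_val
    have h1 : Continuous (fun x : St (5/4 * D.p) => (D.Pc5 (D.cc j) x.1).1 - D.cc k) :=
      (continuous_fst.comp h0).sub continuous_const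
    have h2 : Continuous (fun x : St (5/4 * D.p) =>
        Om5 (D.cc k) (D.Pc5 (D.cc j) x.1) / ((D.Pc5 (D.cc j) x.1).1 - D.cc k)^2) := by
      apply ((Om5_continuous (D.cc k)).comp h0).div (h1.pow 2)
      intro x
      exact pow_ne_zero 2 (hne x)
    apply h1.mul
    rw [continuous_iff_continuousAt]
    intro x
    exact (rt_continuousAt (D.other_slit5 hjk x.2).2).comp
      (f := fun x : St (5/4 * D.p) =>
        Om5 (D.cc k) (D.Pc5 (D.cc j) x.1) / ((D.Pc5 (D.cc j) x.1).1 - D.cc k)^2)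
      h2.continuousAt
  · intro x
    change (((D.Pc5 (D.cc j) x.1).1 - D.cc k) *
      rt (Om5 (D.cc k) (D.Pc5 (D.cc j) x.1) / ((D.Pc5 (D.cc j) x.1).1 - D.cc k)^2))^2
      = Om5 (D.cc k) (D.Pc5 (D.cc j) x.1)
    rw [mul_pow, rt_sq]
    have := hne x
    field_simp
  · intro x
    have h1 : D.Pc5 (D.cc j) (tau _ x).1 = D.Pc5 (D.cc j) x.1 := D.profc5.flip5 x.1
    simp only
    rw [h1]

theorem lift_E05_bc (k : Fin 4) :
    ∃ u : St (5/4 * D.p) → ℂ × ℝ, Continuous u ∧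
    (∀ s, (D.bc5 k s, u s) ∈ D.E05) ∧ ∀ s, u (tau _ s) = u s := by
  set c := D.cc k with hc
  refine ⟨fun x => ((D.χ1 (D.Pc5 c x.1) : ℂ) * (D.Pc5 c x.1).1, D.χ2 (D.Pc5 c x.1)), ?_, ?_, ?_⟩
  · have h0 : Continuous (fun x : St (5/4 * D.p) => D.Pc5 c x.1) :=
      (D.Pc5_continuous _).comp continuous_subtype_val
    exact ((Complex.continuous_ofReal.comp (D.χ1_continuous.comp h0)).mul
      (continuous_fst.comp h0)).prodMk (D.χ2_continuous.comp h0)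
  · intro x
    have hW := ((D.mem_Wc5_iff k (D.Pc5 c x.1)).2 ⟨x.1, x.2, rfl⟩)
    have he := (D.χ1_exact5 hW.1 hW.2.1).1
    refine ⟨he.symm, rfl, ?_⟩
    change (D.χ1 (D.Pc5 c x.1) : ℂ) * (D.Pc5 c x.1).1 * (D.χ2 (D.Pc5 c x.1) : ℂ)
      = (D.χ2 (D.Pc5 c x.1) : ℂ) * ((D.χ1 (D.Pc5 c x.1) : ℂ) * (D.Pc5 c x.1).1)
    ring
  · intro x
    have h1 : D.Pc5 c (tau _ x).1 = D.Pc5 c x.1 := D.profc5.flip5 x.1
    simp only
    rw [h1]

theorem lift_E05_b0 : ∃ u : St D.r0 → ℂ × ℝ, Continuous u ∧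
    (∀ s, (D.b05 s, u s) ∈ D.E05) ∧ ∀ s, u (tau _ s) = -u s := by
  have hBpos : ∀ x : St D.r0, 0 < D.B0 x.1.2 := fun x => D.prof0.pos _ (le_of_lt x.2)
  refine ⟨fun x => (((D.χ1 (D.P0 x.1) * Real.sqrt (D.B0 x.1.2) : ℝ) : ℂ) * cis x.1.1,
    D.χ2 (D.P0 x.1) * (A0 x.1.2 / Real.sqrt (D.B0 x.1.2))), ?_, ?_, ?_⟩
  · have h0 : Continuous (fun x : St D.r0 => D.P0 x.1) :=
      D.P0_continuous.comp continuous_subtype_val
    have hs : Continuous (fun x : St D.r0 => x.1.2) := by fun_prop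
    have h1 : Continuous (fun x : St D.r0 => Real.sqrt (D.B0 x.1.2)) :=
      Real.continuous_sqrt.comp (D.prof0.hB.continuous.comp hs)
    have h2 : Continuous (fun x : St D.r0 => A0 x.1.2) := D.prof0.hA.continuous.comp hs
    have h3 : Continuous (fun x : St D.r0 => cis x.1.1) := cis_continuous.comp (by fun_prop)
    refine Continuous.prodMk ((Complex.continuous_ofReal.comp
      ((D.χ1_continuous.comp h0).mul h1)).mul h3) ((D.χ2_continuous.comp h0).mul (h2.div h1 ?_))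
    intro x
    exact (Real.sqrt_pos.2 (hBpos x)).ne'
  · intro x
    set B := D.B0 x.1.2 with hB
    set A := A0 x.1.2 with hA
    have hsB : 0 < Real.sqrt B := Real.sqrt_pos.2 (hBpos x)
    have hsq : Real.sqrt B ^ 2 = B := Real.sq_sqrt (hBpos x).le
    have hAB : D.χ2 (D.P0 x.1) ≠ 0 → A^2 = B := by
      intro hne
      have hp2 : 0 < D.p^2 := pow_pos D.hp 2
      have hn : ‖(D.P0 x.1).2‖ < 4 * D.p^2 := by
        by_contra h
        push Not at h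
        exact hne (max_eq_left (by linarith))
      have h1 := D.P0_exact (le_of_lt x.2) (by linarith)
      rw [D.P0_fst, D.P0_snd, mul_pow, ← cis_two_mul] at h1
      have h2 := mul_right_cancel₀ (cis_ne_zero _) h1
      have h3 : B = A^2 := by exact_mod_cast h2
      exact h3.symm
    have hP1 : ((D.b05 x : ℂ × ℂ)).1 = A * cis x.1.1 := D.P0_fst x.1
    have hP2 : ((D.b05 x : ℂ × ℂ)).2 = B * cis (2 * x.1.1) := D.P0_snd x.1
    have hbP : ((D.b05 x : ℂ × ℂ)) = D.P0 x.1 := rfl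
    refine ⟨?_, ?_, ?_⟩
    · change (((D.χ1 (D.P0 x.1) * Real.sqrt B : ℝ) : ℂ) * cis x.1.1)^2
        = (D.χ1 (D.P0 x.1) : ℂ)^2 * (D.b05 x : ℂ × ℂ).2
      rw [hP2, mul_pow, ← cis_two_mul, ← mul_assoc]
      congr 1
      have : (D.χ1 (D.P0 x.1) * Real.sqrt B)^2 = D.χ1 (D.P0 x.1)^2 * B := by
        rw [mul_pow, hsq]
      exact_mod_cast this
    · change (D.χ2 (D.P0 x.1) * (A / Real.sqrt B))^2 = D.χ2 (D.P0 x.1)^2
      by_cases h : D.χ2 (D.P0 x.1) = 0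
      · rw [h]; ring
      · rw [mul_pow, div_pow, hsq, hAB h, div_self (hBpos x).ne', mul_one]
    · change ((D.χ1 (D.P0 x.1) * Real.sqrt B : ℝ) : ℂ) * cis x.1.1 * (D.χ2 (D.P0 x.1) : ℂ)
        = ((D.χ2 (D.P0 x.1) * (A / Real.sqrt B) : ℝ) : ℂ) *
          ((D.χ1 (D.P0 x.1) : ℂ) * (D.b05 x : ℂ × ℂ).1)
      rw [hP1]
      by_cases h : D.χ2 (D.P0 x.1) = 0
      · rw [h]; simp
      · have h5 : A / Real.sqrt B * A = Real.sqrt B := by
          rw [div_mul_eq_mul_div, div_eq_iff hsB.ne', ← pow_two, ← pow_two, hsq]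
          exact hAB h
        have h6 : (((A / Real.sqrt B * A : ℝ)) : ℂ) = ((Real.sqrt B : ℝ) : ℂ) := by rw [h5]
        push_cast at h6 ⊢
        linear_combination (-(D.χ2 (D.P0 x.1) : ℂ) * (D.χ1 (D.P0 x.1) : ℂ) * cis x.1.1) * h6
  · intro x
    have h1 : D.P0 (tau _ x).1 = D.P0 x.1 := D.prof0.flip x.1
    have h2 : (tau _ x).1.1 = x.1.1 + Real.pi := rfl
    have h3 : (tau _ x).1.2 = -x.1.2 := rfl
    simp only
    rw [h1, h2, h3, cis_add_pi, D.prof0.even, D.prof0.odd]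
    apply Prod.ext
    · simp
    · simp [neg_div]

theorem mem_R15_of {c z : ℂ} (h1 : 36/25 * D.p^2 < z.re * z.re + z.im * z.im)
    (h2 : (z.re - c.re) * (z.re - c.re) + (z.im - c.im) * (z.im - c.im) < 25/16 * D.p^2) :
    z ∈ R15 D.p c := by
  have hp := D.hp
  constructor
  · apply lt_of_pow_lt_pow_left₀ 2 (norm_nonneg _)
    rw [← Complex.normSq_eq_norm_sq, Complex.normSq_apply]
    nlinarith
  · apply lt_of_pow_lt_pow_left₀ 2 (by positivity)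
    rw [norm_re_sub]
    nlinarith

theorem exists_z0 : ∃ z : ℂ, z ∈ R15 D.p (D.cc 0) ∧ z ∈ R15 D.p (D.cc 1) := by
  have hp := D.hp
  have hp2 : 0 < D.p^2 := by positivity
  refine ⟨⟨9/10 * D.p, 9/10 * D.p⟩, D.mem_R15_of ?_ ?_, D.mem_R15_of ?_ ?_⟩
  · simp only; nlinarith
  · rw [D.cc0]; simp; nlinarith
  · simp only; nlinarith
  · rw [D.cc1]; simp; nlinarith

theorem exists_z1 : ∃ z : ℂ, z ∈ R15 D.p (D.cc 1) ∧ z ∈ R15 D.p (D.cc 2) := by
  have hp := D.hp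
  have hp2 : 0 < D.p^2 := by positivity
  refine ⟨⟨-(9/10 * D.p), 9/10 * D.p⟩, D.mem_R15_of ?_ ?_, D.mem_R15_of ?_ ?_⟩
  · simp only; nlinarith
  · rw [D.cc1]; simp; nlinarith
  · simp only; nlinarith
  · rw [D.cc2]; simp; nlinarith

theorem exists_z2 : ∃ z : ℂ, z ∈ R15 D.p (D.cc 2) ∧ z ∈ R15 D.p (D.cc 3) := by
  have hp := D.hp
  have hp2 : 0 < D.p^2 := by positivity
  refine ⟨⟨-(9/10 * D.p), -(9/10 * D.p)⟩, D.mem_R15_of ?_ ?_, D.mem_R15_of ?_ ?_⟩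
  · simp only; nlinarith
  · rw [D.cc2]; simp; nlinarith
  · simp only; nlinarith
  · rw [D.cc3]; simp; nlinarith

/-- the fundamental group has exactly thirty-two homomorphisms to the group with two elements -/
theorem card_hom5 : Nat.card (FundamentalGroup D.M5 D.xb5 →* Multiplicative (ZMod 2)) = 2^5 := by
  have hpc := D.M5_pathConnected
  have i0 := St_simply D.r0_pos
  have i1 := St_simply D.profc5.rho_pos
  set s0 : St D.r0 := ⟨(0, 0), by simpa using D.r0_pos⟩ with hs0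
  set s1 : St (5/4 * D.p) := ⟨(0, 0), by simpa using D.hp⟩ with hs1
  set q0 := PathConnectedSpace.somePath s0 (tau _ s0) with hq0
  set q1 := PathConnectedSpace.somePath s1 (tau _ s1) with hq1
  obtain ⟨α0, hα0⟩ := D.E05_double.exists_hom D.xb5
  choose α hα using fun k => (D.Ec5_double k).exists_hom D.xb5
  have v00 : α0 (lpc D.xb5 (q0.map D.b05_continuous)) = -1 := by
    obtain ⟨u, hu, hE, hf⟩ := D.lift_E05_b0
    rw [← wtOfHom_eq]
    exact (band_eval D.E05_double hα0 D.b05_continuous q0 (D.b05_tau s0) hu hE).2 (hf s0)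
  have v0c : ∀ k, α0 (lpc D.xb5 (q1.map (D.bc5_continuous k))) = 1 := by
    intro k
    obtain ⟨u, hu, hE, hf⟩ := D.lift_E05_bc k
    rw [← wtOfHom_eq]
    exact (band_eval D.E05_double hα0 (D.bc5_continuous k) q1 (D.bc5_tau k s1) hu hE).1 (hf s1)
  have vc0 : ∀ k, α k (lpc D.xb5 (q0.map D.b05_continuous)) = -1 := by
    intro k
    obtain ⟨u, hu, hE, hf⟩ := D.lift_Ec5_b0 k
    rw [← wtOfHom_eq]
    exact (band_eval (D.Ec5_double k) (hα k) D.b05_continuous q0 (D.b05_tau s0) hu hE).2 (hf s0)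
  have vcc : ∀ k, α k (lpc D.xb5 (q1.map (D.bc5_continuous k))) = -1 := by
    intro k
    obtain ⟨u, hu, hE, hf⟩ := D.lift_Ec5_bc k
    rw [← wtOfHom_eq]
    exact (band_eval (D.Ec5_double k) (hα k) (D.bc5_continuous k) q1 (D.bc5_tau k s1) hu hE).2
      (hf s1)
  have vcj : ∀ j k, j ≠ k → α k (lpc D.xb5 (q1.map (D.bc5_continuous j))) = 1 := by
    intro j k hjk
    obtain ⟨u, hu, hE, hf⟩ := D.lift_Ec5_bother hjk
    rw [← wtOfHom_eq]
    exact (band_eval (D.Ec5_double k) (hα k) (D.bc5_continuous j) q1 (D.bc5_tau j s1) hu hE).1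
      (hf s1)
  have main := card_hom_fin (ι := Option (Fin 4))
    (fun i => i.elim (lpc D.xb5 (q0.map D.b05_continuous))
      (fun k => lpc D.xb5 (q1.map (D.bc5_continuous k)))) ?_
    (fun i => i.elim α0 (fun k => α k * α0)) ?_
  · rw [main]; simp
  · intro γ hγ
    apply hom_eq_one
    intro l
    set w := wtOfHom D.xb5 γ with hw
    have e0 : w.w (q0.map D.b05_continuous) = 1 := hγ none
    have e1 : ∀ k, w.w (q1.map (D.bc5_continuous k)) = 1 := fun k => hγ (some k)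
    obtain ⟨f0, hf0⟩ := band_pot (c := 0) D.prof0 D.W0_open D.mem_W05_iff D.hM05 w s0 q0 e0
    choose f hf using fun k => band_pot5 (c := D.cc k) D.profc5 (D.Wc5_open (D.cc k))
      (D.mem_Wc5_iff k) (D.hMc5 k) w s1 q1 (e1 k)
    obtain ⟨z0, ha0, hb0⟩ := D.exists_z0
    obtain ⟨z1, ha1, hb1⟩ := D.exists_z1
    obtain ⟨z2, ha2, hb2⟩ := D.exists_z2
    exact w.five_potentials (U0 := {y : D.M5 | (y : ℂ × ℂ) ∈ D.W0})
      (U := fun k => {y : D.M5 | (y : ℂ × ℂ) ∈ D.Wc5 (D.cc k)})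
      (D.W0_open.preimage continuous_subtype_val)
      (fun k => (D.Wc5_open _).preimage continuous_subtype_val)
      (fun y => D.cover5 y.2) f0 f hf0 hf D.overlap25 D.overlap15
      (z0 := ⟨(z0, z0^2), (D.exactR15 0 ha0).1⟩) (z1 := ⟨(z1, z1^2), (D.exactR15 1 ha1).1⟩)
      (z2 := ⟨(z2, z2^2), (D.exactR15 2 ha2).1⟩)
      ⟨(D.exactR15 0 ha0).2.1, (D.exactR15 0 ha0).2.2, (D.exactR15 1 hb0).2.2⟩
      ⟨(D.exactR15 1 ha1).2.1, (D.exactR15 1 ha1).2.2, (D.exactR15 2 hb1).2.2⟩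
      ⟨(D.exactR15 2 ha2).2.1, (D.exactR15 2 ha2).2.2, (D.exactR15 3 hb2).2.2⟩ l
  · rintro (_ | i) (_ | j)
    · exact v00
    · simpa using v0c j
    · have h1 := vc0 i
      change (α i * α0) (lpc D.xb5 (q0.map D.b05_continuous)) = _
      rw [MonoidHom.mul_apply, vc0 i, v00]; simp
    · change (α i * α0) (lpc D.xb5 (q1.map (D.bc5_continuous j))) = _
      rw [MonoidHom.mul_apply, v0c j, mul_one]
      by_cases hij : i = j
      · subst hij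
        rw [vcc i]; simp
      · rw [vcj j i (Ne.symm hij)]
        simp [hij]

end N3D

end Pool.Agent.Helper331
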