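import Pool.Agent.H236N5.Tight

set_option autoImplicit false

open Set Filter Topology unitInterval
open scoped ContDiff

namespace Pool.Agent.Helper331

/-! ### path connected planar regions -/

/-- crescent -/
def R15 (p : ℝ) (c : ℂ) : Set ℂ := {z | 6/5 * p < ‖z‖ ∧ ‖z - c‖ < 5/4 * p}

theorem R15_to_real {p : ℝ} (hp : 0 < p) {w : ℂ} (hw : w ∈ R15 p p) :
    JoinedIn (R15 p p) w (‖w‖ : ℂ) := by
  obtain ⟨h1, h2⟩ := hw
  set m := ‖w‖ with hm
  have hm0 : 0 < m := lt_trans (by positivity) h1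
  have hw' : (m : ℂ) * cis (Complex.arg w) = w := Complex.norm_mul_exp_arg_mul_I w
  refine JoinedIn.ofLine (f := fun t : ℝ => (m : ℂ) * cis ((1 - t) * Complex.arg w)) ?_ ?_ ?_ ?_
  · apply Continuous.continuousOn
    exact continuous_const.mul (cis_continuous.comp (by fun_prop))
  · simp [hw']
  · simp [cis_zero]
  · rintro _ ⟨t, ht, rfl⟩
    constructor
    · simp only
      rw [norm_mul, norm_cis, mul_one, Complex.norm_real, Real.norm_of_nonneg hm0.le]
      exact h1
    · simp only
      apply lt_of_pow_lt_pow_left₀ 2 (by positivity)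
      refine lt_of_le_of_lt ?_ (pow_lt_pow_left₀ h2 (norm_nonneg _) two_ne_zero)
      rw [norm_cis_sub, ← hw', norm_cis_sub]
      have hcos : Real.cos (Complex.arg w) ≤ Real.cos ((1 - t) * Complex.arg w) := by
        rw [← Real.cos_abs (Complex.arg w), ← Real.cos_abs ((1 - t) * Complex.arg w)]
        apply Real.cos_le_cos_of_nonneg_of_le_pi (abs_nonneg _) (Complex.abs_arg_le_pi w)
        rw [abs_mul]
        have : |1 - t| ≤ 1 := by rw [abs_le]; constructor <;> linarith [ht.1, ht.2]
        have := abs_nonneg (Complex.arg w)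
        nlinarith
      have : 0 ≤ 2 * m * p := by positivity
      rw [hw']
      nlinarith

theorem R15_real {p m m' : ℝ} (hp : 0 < p) (hm : 6/5 * p < m ∧ m < 9/4 * p)
    (hm' : 6/5 * p < m' ∧ m' < 9/4 * p) : JoinedIn (R15 p p) (m : ℂ) (m' : ℂ) := by
  refine JoinedIn.ofLine (f := fun t : ℝ => (((1 - t) * m + t * m' : ℝ) : ℂ)) ?_ ?_ ?_ ?_
  · apply Continuous.continuousOn
    exact Complex.continuous_ofReal.comp (by fun_prop)
  · simp
  · simp
  · rintro _ ⟨t, ht, rfl⟩
    have h1 : 0 ≤ 1 - t := by linarith [ht.2]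
    have h2 : 0 ≤ t := ht.1
    set n := (1 - t) * m + t * m' with hn
    have h3 : 6/5 * p < n := by
      rcases eq_or_lt_of_le h2 with h | h
      · rw [hn, ← h]; linarith [hm.1]
      · have a1 : t * (6/5 * p) < t * m' := mul_lt_mul_of_pos_left hm'.1 h
        have a2 : (1 - t) * (6/5 * p) ≤ (1 - t) * m := mul_le_mul_of_nonneg_left hm.1.le h1
        linarith
    have h4 : n < 9/4 * p := by
      rcases eq_or_lt_of_le h2 with h | h
      · rw [hn, ← h]; linarith [hm.2]
      · have a1 : t * m' < t * (9/4 * p) := mul_lt_mul_of_pos_left hm'.2 h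
        have a2 : (1 - t) * m ≤ (1 - t) * (9/4 * p) := mul_le_mul_of_nonneg_left hm.2.le h1
        linarith
    constructor
    · simp only
      rw [Complex.norm_real, Real.norm_of_nonneg (by linarith)]; exact h3
    · simp only
      rw [← Complex.ofReal_sub, Complex.norm_real, Real.norm_eq_abs, abs_lt]
      constructor <;> linarith

theorem R15_aux {p : ℝ} (hp : 0 < p) {w w' : ℂ} (hw : w ∈ R15 p p) (hw' : w' ∈ R15 p p) :
    JoinedIn (R15 p p) w w' := by
  have key : ∀ w ∈ R15 p p, 6/5 * p < ‖w‖ ∧ ‖w‖ < 9/4 * p := by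
    intro w hw
    refine ⟨hw.1, ?_⟩
    have h2 := norm_add_le (w - p) (p : ℂ)
    rw [sub_add_cancel, Complex.norm_real, Real.norm_of_nonneg hp.le] at h2
    linarith [hw.2]
  exact (R15_to_real hp hw).trans ((R15_real hp (key w hw) (key w' hw')).trans
    (R15_to_real hp hw').symm)

theorem R15_joined {p : ℝ} {om : ℂ} (hp : 0 < p) (hom : ‖om‖ = 1) {w w' : ℂ}
    (hw : w ∈ R15 p (p * om)) (hw' : w' ∈ R15 p (p * om)) : JoinedIn (R15 p (p * om)) w w' := by
  have hom0 : om ≠ 0 := by
    intro h; rw [h] at hom; simp at hom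
  have h1 : ∀ z, z ∈ R15 p (p * om) → z / om ∈ R15 p p := by
    intro z hz
    refine ⟨by rw [norm_div, hom, div_one]; exact hz.1, ?_⟩
    have e : z / om - (p : ℂ) = (z - p * om) / om := by field_simp
    rw [e, norm_div, hom, div_one]
    exact hz.2
  have h2 : ∀ z, z ∈ R15 p p → z * om ∈ R15 p (p * om) := by
    intro z hz
    refine ⟨by rw [norm_mul, hom, mul_one]; exact hz.1, ?_⟩
    have e : z * om - p * om = (z - p) * om := by ring
    rw [e, norm_mul, hom, mul_one]
    exact hz.2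
  obtain ⟨γ, hγ⟩ := R15_aux hp (h1 w hw) (h1 w' hw')
  refine ⟨(γ.map (f := fun z : ℂ => z * om) (continuous_id.mul continuous_const)).cast
    (by field_simp) (by field_simp), ?_⟩
  intro t
  simpa using h2 _ (hγ t)

/-- lens -/
def R25 (p : ℝ) (c c' : ℂ) : Set ℂ := {z | ‖z - c‖ < 5/4 * p ∧ ‖z - c'‖ < 5/4 * p}

theorem R25_joined {p : ℝ} {c c' w w' : ℂ} (hw : w ∈ R25 p c c') (hw' : w' ∈ R25 p c c') :
    JoinedIn (R25 p c c') w w' := by
  have hconv : Convex ℝ (R25 p c c') := by
    have : R25 p c c' = Metric.ball c (5/4 * p) ∩ Metric.ball c' (5/4 * p) := by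
      ext z; simp [R25, dist_eq_norm]
    rw [this]
    exact (convex_ball _ _).inter (convex_ball _ _)
  exact hconv.isPathConnected ⟨w, hw⟩ |>.joinedIn w hw w' hw'

namespace N3D

variable (D : N3D)

theorem Om5_expand (c : ℂ) (y : ℂ × ℂ) : Om5 c y = (y.1 - c)^2 + (y.2 - y.1^2) := by
  simp only [Om5]; ring

/-- near another crosscap -/
theorem other_slit5 {j k : Fin 4} (hjk : j ≠ k) {x : ℝ × ℝ} (hx : |x.2| < 5/4 * D.p) :
    (D.Pc5 (D.cc j) x).1 - D.cc k ≠ 0 ∧
    Om5 (D.cc k) (D.Pc5 (D.cc j) x) / ((D.Pc5 (D.cc j) x).1 - D.cc k)^2 ∈ Complex.slitPlane := by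
  have hp := D.hp
  set y := D.Pc5 (D.cc j) x with hy
  set c := D.cc k with hc
  have h1 : ‖y.1 - D.cc j‖ = |x.2| := D.Pc5_norm (D.cc j) x
  have h2 := D.cc_sub hjk
  have h2' := norm_sub_le (y.1 - c) (y.1 - D.cc j)
  have e' : (y.1 - c) - (y.1 - D.cc j) = D.cc j - c := by ring
  rw [e', h1] at h2'
  have h3 : 0 < ‖y.1 - c‖ := by linarith
  have h4 : y.1 - c ≠ 0 := norm_pos_iff.1 h3
  refine ⟨h4, ?_⟩
  have e : Om5 c y / (y.1 - c)^2 = 1 + (y.2 - y.1^2) / (y.1 - c)^2 := by
    rw [Om5_expand]; field_simp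
  rw [e]
  rcases lt_or_ge |x.2| (D.p/10) with h | h
  · apply Complex.mem_slitPlane_of_norm_lt_one
    have h5 : y.2 - y.1^2 = ((D.g x.2 - x.2^2 : ℝ) : ℂ) * cis (2 * x.1) := by
      rw [hy, D.Pc5_snd, D.Pc5_fst, cis_two_mul]; push_cast; ring
    rw [norm_div, norm_pow, h5, norm_mul, norm_cis, mul_one, Complex.norm_real,
      Real.norm_of_nonneg (by linarith [D.hgl x.2])]
    have h6 := D.hgu x.2
    have h7 : 13/10 * D.p ≤ ‖y.1 - c‖ := by linarith
    rw [div_lt_one (by positivity)]
    have h8 : (13/10 * D.p)^2 ≤ ‖y.1 - c‖^2 := by gcongr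
    have : 0 < D.p^2 := by positivity
    nlinarith
  · rw [D.Pc5_exact h, ← hy]
    simp

/-- on the outer band -/
theorem outer_slit5 {c : ℂ} (hc : ‖c‖ = D.p) {x : ℝ × ℝ} (hx : |x.2| < D.r0) :
    cis (-(2 * x.1)) * Om5 c (D.P0 x) ∈ Complex.slitPlane := by
  have hp := D.hp
  have hp2 : 0 < D.p^2 := by positivity
  obtain ⟨s, a⟩ := x
  simp only at hx ⊢
  set A := A0 a with hA
  set B := D.B0 a with hB
  have hgt := (D.P0_gt_iff (x := (s, a)) (le_of_lt hx)).2 hx
  have hnB : ‖(D.P0 (s, a)).2‖ = B := by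
    rw [D.norm_P0_snd (x := (s, a)) (le_of_lt hx), hB, D.B0_eq]
  rw [hnB] at hgt
  have hcc : cis (-(2 * s)) * cis (2 * s) = 1 := cis_neg_mul _
  have hcc1 : cis (-(2 * s)) * cis s = cis (-s) := by rw [← cis_add]; congr 1; ring
  have hcc2 : cis (-(2 * s)) = cis (-s)^2 := by rw [← cis_two_mul]; congr 1; ring
  set d : ℂ := c * cis (-s) with hd
  have hdn : ‖d‖ = D.p := by rw [hd, norm_mul, norm_cis, mul_one, hc]
  have e : cis (-(2 * s)) * Om5 c (D.P0 (s, a)) = B - 2 * A * d + d^2 := by
    rw [Om5, D.P0_fst, D.P0_snd]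
    simp only
    rw [← hA, ← hB, hd, mul_pow, ← hcc2]
    linear_combination (B : ℂ) * hcc - 2 * c * A * hcc1
  have hdre : |d.re| ≤ D.p := by rw [← hdn]; exact Complex.abs_re_le_norm d
  rcases le_or_gt B (9 * D.p^2) with h | h
  · -- exact
    have hBA : B = A^2 := by
      have h1 := D.P0_exact (x := (s, a)) (le_of_lt hx) (by rw [hnB]; exact h)
      rw [D.P0_fst, D.P0_snd, mul_pow, ← cis_two_mul] at h1
      simp only at h1
      have h2 := mul_right_cancel₀ (cis_ne_zero _) h1
      exact_mod_cast h2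
    have e2 : cis (-(2 * s)) * Om5 c (D.P0 (s, a)) = ((A : ℂ) - d)^2 := by
      rw [e, hBA]; push_cast; ring
    rw [e2]
    set om := (A : ℂ) - d with hom
    have hre : om.re = A - d.re := by
      rw [hom, Complex.sub_re, Complex.ofReal_re]
    have hre0 : om.re ≠ 0 := by
      rw [hre]
      intro h0
      have h1 : A = d.re := by linarith
      have h2 : A^2 ≤ D.p^2 := by
        rw [h1, ← sq_abs]
        have := abs_nonneg d.re
        nlinarith
      rw [← hBA] at h2
      nlinarith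
    rw [Complex.mem_slitPlane_iff]
    by_cases him : om.im = 0
    · left
      rw [pow_two, Complex.mul_re, him]
      have : 0 < om.re * om.re := mul_self_pos.2 hre0
      linarith
    · right
      rw [pow_two, Complex.mul_im]
      intro h0
      have : om.re * om.im = 0 := by linarith
      rcases mul_eq_zero.1 this with h1 | h1
      · exact hre0 h1
      · exact him h1
  · -- upper part
    left
    rw [e]
    have hAB : A^2 ≤ B := by
      rw [hB, D.B0_eq, hA, A0]
      have := D.b_lower (-Real.cos a)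
      have := Real.sin_sq_add_cos_sq a
      nlinarith
    have e3 : ((B : ℂ) - 2 * A * d + d^2).re = B - 2 * A * d.re + (d^2).re := by
      have e4 : (B : ℂ) - 2 * A * d + d^2
          = ((B : ℝ) : ℂ) - ((2 * A : ℝ) : ℂ) * d + d^2 := by push_cast; ring
      rw [e4, Complex.add_re, Complex.sub_re, Complex.re_ofReal_mul, Complex.ofReal_re]
    rw [e3]
    have h5 : |A * d.re| ≤ D.p * |A| := by
      rw [abs_mul, mul_comm D.p]
      gcongr
    have h6 := (abs_le.1 h5).2
    have h7 : -D.p^2 ≤ (d^2).re := by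
      have h8 := (abs_le.1 (Complex.abs_re_le_norm (d^2))).1
      rw [norm_pow, hdn] at h8
      exact h8
    have h8 : 6 * (D.p * |A|) ≤ 9 * D.p^2 + A^2 := by
      have := sq_nonneg (3 * D.p - |A|)
      rw [← sq_abs A]; nlinarith
    nlinarith

/-- the discriminant does not vanish on the surface -/
theorem Om5_ne_zero (k : Fin 4) {y : ℂ × ℂ} (hy : y ∈ D.M5) : Om5 (D.cc k) y ≠ 0 := by
  rcases D.cover5 hy with h | ⟨j, h⟩
  · obtain ⟨x, hx, rfl⟩ := (D.mem_W05_iff y).1 ⟨hy, h⟩
    intro h0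
    have := D.outer_slit5 (D.norm_cc k) hx
    rw [h0, mul_zero] at this
    exact Complex.zero_notMem_slitPlane this
  · obtain ⟨x, hx, rfl⟩ := (D.mem_Wc5_iff j y).1 ⟨hy, h⟩
    by_cases hjk : j = k
    · subst hjk
      rw [Pc5, Om5_Ph]
      apply mul_ne_zero _ (cis_ne_zero _)
      exact_mod_cast (D.hgp _).ne'
    · intro h0
      have := (D.other_slit5 hjk hx).2
      rw [h0, zero_div] at this
      exact Complex.zero_notMem_slitPlane this

/-- double cover associated with one crosscap -/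
def Ec5 (k : Fin 4) : Set (D.M5 × ℂ) := {e | e.2^2 = Om5 (D.cc k) (e.1 : ℂ × ℂ)}

theorem Ec5_double (k : Fin 4) : DoubleRel (D.Ec5 k) :=
  doubleRel_sq (f := fun y : D.M5 => Om5 (D.cc k) (y : ℂ × ℂ))
    ((Om5_continuous (D.cc k)).comp continuous_subtype_val) (fun y => D.Om5_ne_zero k y.2)

/-- double cover coming from the projective plane -/
def E05 : Set (D.M5 × (ℂ × ℝ)) := {e | e.2.1^2 = (D.χ1 e.1 : ℂ)^2 * (e.1 : ℂ × ℂ).2 ∧
  e.2.2^2 = D.χ2 e.1^2 ∧ e.2.1 * D.χ2 e.1 = e.2.2 * (D.χ1 e.1 * (e.1 : ℂ × ℂ).1)}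

theorem χ1_exact5 {y : ℂ × ℂ} (hy : y ∈ D.M5) (h : ‖y.2‖ < 9 * D.p^2) :
    (D.χ1 y : ℂ)^2 * y.2 = (D.χ1 y * y.1)^2 ∧ (2 * D.p^2 < ‖y.2‖ → 0 < D.χ1 y ∧ y.1 ≠ 0) := by
  have hp := D.hp
  have hp2 : 0 < D.p^2 := by positivity
  rcases le_or_gt ‖y.2‖ (2 * D.p^2) with h1 | h1
  · have : D.χ1 y = 0 := max_eq_left (by linarith)
    rw [this]
    refine ⟨by simp, fun h2 => absurd h2 (not_lt.2 h1)⟩
  · have hW : y ∈ D.W0 := by
      change 36/25 * D.p^2 < ‖y.2‖
      linarith
    have he := D.exact_low5 hy hW h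
    refine ⟨by rw [he]; ring, fun _ => ⟨lt_max_of_lt_right (by linarith), ?_⟩⟩
    intro h0
    rw [he, h0] at h1
    norm_num at h1
    linarith

theorem E05_double : DoubleRel D.E05 := by
  have hp := D.hp
  have hp2 : 0 < D.p^2 := by positivity
  intro x
  rcases lt_or_ge ‖(x : ℂ × ℂ).2‖ (9 * D.p^2) with h | h
  · refine ⟨{y | ‖(y : ℂ × ℂ).2‖ < 9 * D.p^2}, ?_, h,
      fun y => ((D.χ1 y : ℂ) * (y : ℂ × ℂ).1, D.χ2 y), ?_, ?_⟩
    · exact isOpen_lt ((continuous_snd.comp continuous_subtype_val).norm) continuous_const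
    · apply Continuous.continuousOn
      have h1 : Continuous (fun y : D.M5 => D.χ1 y) := D.χ1_continuous.comp continuous_subtype_val
      have h2 : Continuous (fun y : D.M5 => D.χ2 y) := D.χ2_continuous.comp continuous_subtype_val
      have h3 : Continuous (fun y : D.M5 => (y : ℂ × ℂ).1) := by fun_prop
      exact ((Complex.continuous_ofReal.comp h1).mul h3).prodMk h2
    · intro y hy
      have hy' : ‖(y : ℂ × ℂ).2‖ < 9 * D.p^2 := hy
      obtain ⟨he, hne⟩ := D.χ1_exact5 y.2 hy'
      constructor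
      · intro h0
        have h1 : (D.χ1 y : ℂ) * (y : ℂ × ℂ).1 = 0 := congrArg Prod.fst h0
        have h2 : D.χ2 y = 0 := congrArg Prod.snd h0
        have h3 : 4 * D.p^2 ≤ ‖(y : ℂ × ℂ).2‖ := by
          by_contra hc
          push Not at hc
          have : 0 < D.χ2 y := lt_max_of_lt_right (by linarith)
          linarith
        obtain ⟨h4, h5⟩ := hne (by linarith)
        rcases mul_eq_zero.1 h1 with h6 | h6
        · have : D.χ1 y = 0 := by exact_mod_cast h6
          linarith
        · exact h5 h6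
      · rintro ⟨u1, u2⟩
        change _ ↔ ((u1, u2) = ((D.χ1 y : ℂ) * (y : ℂ × ℂ).1, D.χ2 y) ∨
          (u1, u2) = (-((D.χ1 y : ℂ) * (y : ℂ × ℂ).1), -D.χ2 y))
        constructor
        · rintro ⟨h1, h2, h3⟩
          simp only at h1 h2 h3
          rw [he] at h1
          have h1' := sq_eq_sq_iff_eq_or_eq_neg.1 h1
          have h2' := sq_eq_sq_iff_eq_or_eq_neg.1 h2
          by_cases hχ2 : D.χ2 y = 0
          · have hu2 : u2 = 0 := by rcases h2' with h | h <;> rw [h, hχ2] <;> simp
            rcases h1' with h | h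
            · left; rw [h, hu2, hχ2]
            · right; rw [h, hu2, hχ2]; simp
          · by_cases hχ1 : (D.χ1 y : ℂ) * (y : ℂ × ℂ).1 = 0
            · have hu1 : u1 = 0 := by rcases h1' with h | h <;> rw [h, hχ1] <;> simp
              rcases h2' with h | h
              · left; rw [h, hu1, hχ1]
              · right; rw [h, hu1, hχ1]; simp
            · rcases h2' with h | h
              · left
                rw [h] at h3 ⊢
                have hne2 : (D.χ2 y : ℂ) ≠ 0 := by exact_mod_cast hχ2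
                have : u1 = (D.χ1 y : ℂ) * (y : ℂ × ℂ).1 := by
                  apply mul_right_cancel₀ hne2
                  rw [h3]; ring
                rw [this]
              · right
                rw [h] at h3 ⊢
                have hne2 : (D.χ2 y : ℂ) ≠ 0 := by exact_mod_cast hχ2
                have : u1 = -((D.χ1 y : ℂ) * (y : ℂ × ℂ).1) := by
                  apply mul_right_cancel₀ hne2
                  rw [h3]; push_cast; ring
                rw [this]
        · rintro (h | h)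
          · obtain ⟨rfl, rfl⟩ := Prod.mk.inj h
            refine ⟨he.symm, rfl, by simp only; ring⟩
          · have h' : (u1, u2) = (-((D.χ1 y : ℂ) * (y : ℂ × ℂ).1), -D.χ2 y) := h
            obtain ⟨rfl, rfl⟩ := Prod.mk.inj h'
            refine ⟨?_, ?_, ?_⟩
            · simp only; rw [neg_sq, he]
            · simp only; rw [neg_sq]
            · simp only; push_cast; ring
  · have hx0 : (x : ℂ × ℂ).2 ≠ 0 := by
      intro h0; rw [h0, norm_zero] at h; linarith
    obtain ⟨W, hW, hxW, g, hg, hgW⟩ := local_sqrt (X := D.M5) (f := fun y => (y : ℂ × ℂ).2)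
      (continuous_snd.comp continuous_subtype_val) hx0
    refine ⟨W ∩ {y | 4 * D.p^2 < ‖(y : ℂ × ℂ).2‖}, hW.inter ?_, ⟨hxW, ?_⟩,
      fun y => ((D.χ1 y : ℂ) * g y, 0), ?_, ?_⟩
    · exact isOpen_lt continuous_const ((continuous_snd.comp continuous_subtype_val).norm)
    · change 4 * D.p^2 < ‖(x : ℂ × ℂ).2‖
      linarith
    · have h1 : Continuous (fun y : D.M5 => D.χ1 y) := D.χ1_continuous.comp continuous_subtype_val
      exact (((Complex.continuous_ofReal.comp h1).continuousOn.mul
        (hg.mono inter_subset_left))).prodMk continuousOn_const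
    · rintro y ⟨hyW, hy4⟩
      have hy4' : 4 * D.p^2 < ‖(y : ℂ × ℂ).2‖ := hy4
      obtain ⟨hgy, hne⟩ := hgW y hyW
      have hχ2 : D.χ2 y = 0 := max_eq_left (by linarith)
      have hχ1 : 0 < D.χ1 y := lt_max_of_lt_right (by linarith)
      constructor
      · intro h0
        have h1 : (D.χ1 y : ℂ) * g y = 0 := congrArg Prod.fst h0
        rcases mul_eq_zero.1 h1 with h6 | h6
        · have : D.χ1 y = 0 := by exact_mod_cast h6
          linarith
        · rw [h6] at hgy
          apply hne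
          rw [← hgy]; ring
      · rintro ⟨u1, u2⟩
        have he : (D.χ1 y : ℂ)^2 * (y : ℂ × ℂ).2 = ((D.χ1 y : ℂ) * g y)^2 := by
          rw [mul_pow, hgy]
        constructor
        · rintro ⟨h1, h2, h3⟩
          simp only at h1 h2 h3
          rw [he] at h1
          rw [hχ2] at h2
          have hu2 : u2 = 0 := by
            have : u2^2 = 0 := by rw [h2]; ring
            exact pow_eq_zero_iff two_ne_zero |>.1 this
          rcases sq_eq_sq_iff_eq_or_eq_neg.1 h1 with h | h
          · left; rw [h, hu2]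
          · right; rw [h, hu2]; simp
        · rintro (h | h)
          · obtain ⟨rfl, rfl⟩ := Prod.mk.inj h
            refine ⟨he.symm, by simp only; rw [hχ2], by simp only; rw [hχ2]; simp⟩
          · have h' : (u1, u2) = (-((D.χ1 y : ℂ) * g y), -0) := h
            obtain ⟨rfl, rfl⟩ := Prod.mk.inj h'
            refine ⟨?_, ?_, ?_⟩
            · simp only; rw [neg_sq, he]
            · simp only; rw [hχ2]; simp
            · simp only; rw [hχ2]; simp

end N3D

end Pool.Agent.Helper331
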