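import Pool.Agent.H236N5.Card

set_option autoImplicit false

open Set Filter Topology
open scoped Manifold ContDiff

namespace Pool.Agent.Helper331

theorem N3D.manifold5 (D : N3D) :
    ∃ (_ : ChartedSpace (EuclideanSpace ℝ (Fin 2)) D.M5) (_ : IsManifold (𝓡 2) ∞ D.M5),
      ContMDiff (𝓡 2) 𝓘(ℝ, ℂ × ℂ) ∞ (Subtype.val : D.M5 → ℂ × ℂ) ∧
      ∀ x : D.M5, Function.Injective (mfderiv (𝓡 2) 𝓘(ℝ, ℂ × ℂ) (Subtype.val : D.M5 → ℂ × ℂ) x) := by
  apply exists_manifold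
  intro y
  rcases D.cover5 y.2 with h | ⟨k, h⟩
  · exact D.prof0.chart (c := 0) D.W0_open D.mem_W05_iff y h
  · exact D.profc5.chart5 (c := D.cc k) (D.Wc5_open _) (D.mem_Wc5_iff k) y h

/-- The surface of Euler characteristic `-3` in four-space. -/
theorem n5_main :
  ∃ (M : Type) (_ : TopologicalSpace M) (_ : ChartedSpace (EuclideanSpace ℝ (Fin 2)) M)
    (_ : IsManifold (𝓡 2) ∞ M) (_ : CompactSpace M) (_ : ConnectedSpace M) (_ : T2Space M)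
    (f : M → EuclideanSpace ℝ (Fin 4)),
    ContMDiff (𝓡 2) 𝓘(ℝ, EuclideanSpace ℝ (Fin 4)) ∞ f ∧
    Topology.IsEmbedding f ∧
    (∀ x : M, Function.Injective (mfderiv (𝓡 2) 𝓘(ℝ, EuclideanSpace ℝ (Fin 4)) f x)) ∧
    (∃ x : M, Nat.card (FundamentalGroup M x →* Multiplicative (ZMod 2)) = 2 ^ 5) ∧
    (∀ (u : EuclideanSpace ℝ (Fin 4)) (c : ℝ),
      IsPreconnected (f ⁻¹' {y : EuclideanSpace ℝ (Fin 4) | c ≤ inner ℝ u y})) ∧
    (∀ (u : EuclideanSpace ℝ (Fin 4)) (c : ℝ),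
      IsPreconnected (f ⁻¹' {y : EuclideanSpace ℝ (Fin 4) | c < inner ℝ u y})) ∧
    (∀ (u : EuclideanSpace ℝ (Fin 4)) (c : ℝ), (∀ x, inner ℝ u (f x) = c) → u = 0) := by
  obtain ⟨D⟩ := exists_N3D
  obtain ⟨hC, hM, hval, hmf⟩ := D.manifold5
  have hcomp : CompactSpace D.M5 := isCompact_iff_compactSpace.1 D.M5_compact
  have hpc := D.M5_pathConnected
  have hconn : ConnectedSpace D.M5 := inferInstance
  have hpre : ∀ (S : Set (ℂ × ℂ)), IsPreconnected {y | y ∈ D.M5 ∧ y ∈ S} →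
      IsPreconnected {m : D.M5 | (m : ℂ × ℂ) ∈ S} := by
    intro S hS
    rw [← Topology.IsInducing.subtypeVal.isPreconnected_image]
    convert hS using 1
    ext y
    constructor
    · rintro ⟨m, hm, rfl⟩; exact ⟨m.2, hm⟩
    · rintro ⟨h1, h2⟩; exact ⟨⟨y, h1⟩, h2, rfl⟩
  refine ⟨D.M5, inferInstance, hC, hM, hcomp, hconn, inferInstance, fun m => J4 m, ?_, ?_, ?_, ?_, ?_,
    ?_, ?_⟩
  · exact J4.contDiff.contMDiff.comp hval
  · have hcl : Topology.IsClosedEmbedding (fun m : D.M5 => J4 (m : ℂ × ℂ)) :=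
      (J4.continuous.comp continuous_subtype_val).isClosedEmbedding
        (J4_injective.comp Subtype.val_injective)
    exact hcl.isEmbedding
  · intro x
    have h1 : MDifferentiableAt 𝓘(ℝ, ℂ × ℂ) 𝓘(ℝ, EuclideanSpace ℝ (Fin 4)) J4 (x : ℂ × ℂ) :=
      J4.mdifferentiableAt
    have h2 : MDifferentiableAt (𝓡 2) 𝓘(ℝ, ℂ × ℂ) (Subtype.val : D.M5 → ℂ × ℂ) x :=
      (hval x).mdifferentiableAt (by simp)
    have h3 := mfderiv_comp x h1 h2
    have h4 : mfderiv (𝓡 2) 𝓘(ℝ, EuclideanSpace ℝ (Fin 4)) (fun m : D.M5 => J4 (m : ℂ × ℂ)) x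
      = (mfderiv 𝓘(ℝ, ℂ × ℂ) 𝓘(ℝ, EuclideanSpace ℝ (Fin 4)) J4 (x : ℂ × ℂ)).comp
        (mfderiv (𝓡 2) 𝓘(ℝ, ℂ × ℂ) (Subtype.val : D.M5 → ℂ × ℂ) x) := h3
    rw [h4]
    have h5 : mfderiv 𝓘(ℝ, ℂ × ℂ) 𝓘(ℝ, EuclideanSpace ℝ (Fin 4)) J4 (x : ℂ × ℂ) = J4 := by
      rw [mfderiv_eq_fderiv]; exact J4.fderiv
    rw [h5]
    exact J4_injective.comp (hmf x)
  · exact ⟨D.xb5, D.card_hom5⟩
  · intro u c
    have h1 := hpre {y | c ≤ ht (u 0) (u 1) (u 2) (u 3) y} (D.tight_closed5 _ _ _ _ c)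
    convert h1 using 1
    ext m
    simp only [mem_preimage, mem_ofPred_eq, inner_J4]
  · intro u c
    have h1 := hpre {y | c < ht (u 0) (u 1) (u 2) (u 3) y} (D.tight_open5 _ _ _ _ c)
    convert h1 using 1
    ext m
    simp only [mem_preimage, mem_ofPred_eq, inner_J4]
  · intro u c h
    obtain ⟨h0, h1, h2, h3⟩ := D.substantial5 (v0 := u 0) (v1 := u 1) (v2 := u 2) (v3 := u 3)
      (c := c) (fun y hy => by rw [← inner_J4]; exact h ⟨y, hy⟩)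
    ext i
    fin_cases i
    · exact h0
    · exact h1
    · exact h2
    · exact h3

end Pool.Agent.Helper331
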