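import Pool.Agent.H236N5.Band

set_option autoImplicit false

open Real Set Filter Topology
open scoped ContDiff

namespace Pool.Agent.Helper331

namespace N3D

variable (D : N3D)

theorem profc5 : Prof (fun a => a) D.g (5/4 * D.p) where
  hA := contDiff_id
  hB := D.hgs
  odd := fun a => rfl
  even := D.hge
  pos := fun a _ => D.hgp a
  inj := fun a b _ _ h _ => h
  imm := fun a _ => by
    left
    have : deriv (fun a : ℝ => a) a = 1 := deriv_id a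
    rw [this]; norm_num
  rho_pos := by have := D.hp; positivity

/-- crosscap band map -/
noncomputable def Pc5 (c : ℂ) : ℝ × ℝ → ℂ × ℂ := Ph5 c (fun a => a) D.g

/-- the four centres -/
noncomputable def cc (k : Fin 4) : ℂ := D.p * Complex.I ^ (k : ℕ)

theorem norm_cc (k : Fin 4) : ‖D.cc k‖ = D.p := by
  rw [cc, norm_mul, norm_pow, Complex.norm_I, one_pow, mul_one, Complex.norm_real,
    Real.norm_of_nonneg D.hp.le]

theorem cc0 : D.cc 0 = D.p := by simp [cc]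

theorem cc1 : D.cc 1 = D.p * Complex.I := by simp [cc]

theorem cc2 : D.cc 2 = -D.p := by simp [cc]

theorem cc3 : D.cc 3 = -(D.p * Complex.I) := by
  have h : (Complex.I : ℂ)^3 = -Complex.I := by
    rw [pow_succ, Complex.I_sq]; ring
  simp [cc, h]

theorem cc_sub {j k : Fin 4} (h : j ≠ k) : 7/5 * D.p ≤ ‖D.cc j - D.cc k‖ := by
  have hp := D.hp
  apply le_of_pow_le_pow_left₀ two_ne_zero (norm_nonneg _)
  rw [← Complex.normSq_eq_norm_sq, Complex.normSq_apply]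
  have h2 : 0 < D.p^2 := by positivity
  fin_cases j <;> fin_cases k <;> simp [cc0, cc1, cc2, cc3] at h ⊢ <;> nlinarith

/-- the surface -/
def M5 : Set (ℂ × ℂ) :=
  {y | ∃ x : ℝ × ℝ, |x.2| ≤ D.r0 ∧ D.P0 x = y} ∪
  {y | ∃ k : Fin 4, ∃ x : ℝ × ℝ, |x.2| ≤ 5/4 * D.p ∧ D.Pc5 (D.cc k) x = y}

theorem Pc5_fst (c : ℂ) (x : ℝ × ℝ) : (D.Pc5 c x).1 = c + x.2 * cis x.1 := by
  simp [Pc5, Ph5]

theorem Pc5_snd (c : ℂ) (x : ℝ × ℝ) :
    (D.Pc5 c x).2 = c^2 + 2 * c * (x.2 * cis x.1) + D.g x.2 * cis (2 * x.1) := by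
  simp [Pc5, Ph5]

theorem exactc5 {c : ℂ} {z : ℂ} (h1 : D.p/10 ≤ ‖z - c‖) :
    D.Pc5 c (Complex.arg (z - c), ‖z - c‖) = (z, z^2) := by
  have hz : (‖z - c‖ : ℂ) * cis (Complex.arg (z - c)) = z - c :=
    Complex.norm_mul_exp_arg_mul_I (z - c)
  apply Prod.ext
  · rw [D.Pc5_fst]; simp only; rw [hz]; ring
  · rw [D.Pc5_snd]
    simp only
    rw [hz, D.hgq _ (by rwa [abs_of_nonneg (norm_nonneg _)]), cis_two_mul]
    push_cast
    rw [← mul_pow, hz]; ring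

theorem Pc5_norm (c : ℂ) (x : ℝ × ℝ) : ‖(D.Pc5 c x).1 - c‖ = |x.2| := by
  rw [D.Pc5_fst, add_sub_cancel_left, norm_mul, norm_cis, mul_one, Complex.norm_real, norm_eq_abs]

theorem Pc5_exact {c : ℂ} {x : ℝ × ℝ} (hx : D.p/10 ≤ |x.2|) :
    (D.Pc5 c x).2 = (D.Pc5 c x).1^2 := by
  rw [D.Pc5_snd, D.Pc5_fst, D.hgq _ hx, cis_two_mul]
  push_cast; ring

theorem Pc5_small {c : ℂ} (hc : ‖c‖ = D.p) {x : ℝ × ℝ} (hx : |x.2| < D.p/10) :
    ‖(D.Pc5 c x).2‖ ≤ 5/4 * D.p^2 := by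
  have hp := D.hp
  rw [D.Pc5_snd]
  have h1 : ‖c^2‖ = D.p^2 := by
    rw [norm_pow, hc]
  have h2 : ‖2 * c * (x.2 * cis x.1)‖ = 2 * D.p * |x.2| := by
    rw [norm_mul, norm_mul, norm_mul, norm_cis, Complex.norm_real, norm_eq_abs, hc]
    simp
  have h3 : ‖(D.g x.2 : ℂ) * cis (2 * x.1)‖ = D.g x.2 := by
    rw [norm_mul, norm_cis, mul_one, Complex.norm_real, Real.norm_of_nonneg (D.hgp _).le]
  have h4 := norm_add_le (c^2 + 2 * c * (x.2 * cis x.1)) (D.g x.2 * cis (2 * x.1))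
  have h5 := norm_add_le (c^2) (2 * c * (x.2 * cis x.1))
  rw [h3] at h4
  rw [h1, h2] at h5
  have h6 := D.hgu x.2
  have h7 : x.2^2 ≤ D.p^2/100 := by
    rw [← sq_abs]
    have := abs_nonneg x.2
    nlinarith
  have h8 : 2 * D.p * |x.2| ≤ 2 * D.p * (D.p/10) := by gcongr
  nlinarith

/-- the open set carrying the crosscap band -/
def Wc5 (c : ℂ) : Set (ℂ × ℂ) := {y | ‖y.2‖ < 9 * D.p^2 ∧ ‖y.1 - c‖ < 5/4 * D.p}

theorem Wc5_open (c : ℂ) : IsOpen (D.Wc5 c) :=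
  (isOpen_lt (continuous_snd.norm) continuous_const).inter
    (isOpen_lt ((continuous_fst.sub continuous_const).norm) continuous_const)

theorem norm_le_of_near5 {c : ℂ} (hc : ‖c‖ = D.p) {z : ℂ} (hz : ‖z - c‖ ≤ 5/4 * D.p) :
    ‖z‖ ≤ 9/4 * D.p := by
  have h2 := norm_add_le (z - c) c
  rw [sub_add_cancel, hc] at h2
  linarith

/-- points of M in the zone above the crosscaps -/
theorem mem_W05_iff (y : ℂ × ℂ) : y ∈ D.M5 ∩ D.W0 ↔ ∃ x : ℝ × ℝ, |x.2| < D.r0 ∧ D.P0 x = y := by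
  have hp := D.hp
  have hp2 : 0 < D.p^2 := by positivity
  constructor
  · rintro ⟨hM, hW⟩
    have hW' : 36/25 * D.p^2 < ‖y.2‖ := hW
    rcases hM with ⟨x, hx, hxy⟩ | ⟨k, x, hx, rfl⟩
    · refine ⟨x, ?_, hxy⟩
      rw [← D.P0_gt_iff hx, hxy]; exact hW'
    · have hc := D.norm_cc k
      have h1 : D.p/10 ≤ |x.2| := by
        by_contra h
        push Not at h
        have := D.Pc5_small hc h
        nlinarith
      have h2 := D.Pc5_exact (c := D.cc k) h1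
      have h3 := D.Pc5_norm (D.cc k) x
      have h4 : ‖(D.Pc5 (D.cc k) x).1‖ ≤ 9/4 * D.p := D.norm_le_of_near5 hc (by rw [h3]; exact hx)
      have h5 : 6/5 * D.p < ‖(D.Pc5 (D.cc k) x).1‖ := by
        rw [h2, norm_pow] at hW'
        apply lt_of_pow_lt_pow_left₀ 2 (norm_nonneg _)
        nlinarith
      obtain ⟨x', h6, h7, h8⟩ := D.exact0 h5.le (by linarith)
      refine ⟨x', h8 h5, ?_⟩
      rw [h7, ← h2]
  · rintro ⟨x, hx, rfl⟩
    exact ⟨Or.inl ⟨x, hx.le, rfl⟩, (D.P0_gt_iff hx.le).2 hx⟩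

/-- points of M near a crosscap -/
theorem mem_Wc5_iff (k : Fin 4) (y : ℂ × ℂ) :
    y ∈ D.M5 ∩ D.Wc5 (D.cc k) ↔ ∃ x : ℝ × ℝ, |x.2| < 5/4 * D.p ∧ D.Pc5 (D.cc k) x = y := by
  have hp := D.hp
  have hp2 : 0 < D.p^2 := by positivity
  have hc := D.norm_cc k
  -- exact points
  have key : ∀ z : ℂ, D.p/10 ≤ ‖z - D.cc k‖ → ‖z - D.cc k‖ < 5/4 * D.p →
      ∃ x : ℝ × ℝ, |x.2| < 5/4 * D.p ∧ D.Pc5 (D.cc k) x = (z, z^2) := by
    intro z h1 h2
    exact ⟨_, by simpa [abs_of_nonneg (norm_nonneg _)] using h2, D.exactc5 h1⟩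
  constructor
  · rintro ⟨hM, hW1, hW2⟩
    rcases hM with ⟨x, hx, rfl⟩ | ⟨j, x, hx, rfl⟩
    · have h1 := D.P0_exact hx hW1.le
      have h2 := D.P0_ge hx
      rw [h1, norm_pow] at h2
      have h3 : 6/5 * D.p ≤ ‖(D.P0 x).1‖ := by
        apply le_of_pow_le_pow_left₀ two_ne_zero (norm_nonneg _)
        nlinarith
      have h5 := norm_sub_norm_le (D.P0 x).1 (D.cc k)
      obtain ⟨x', h6, h7⟩ := key (D.P0 x).1 (by linarith) hW2
      exact ⟨x', h6, by rw [h7, ← h1]⟩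
    · by_cases hjk : j = k
      · subst hjk
        refine ⟨x, ?_, rfl⟩
        rw [← D.Pc5_norm (D.cc j) x]; exact hW2
      · have h1 := D.Pc5_norm (D.cc j) x
        have h2 := D.cc_sub hjk
        have h2' := norm_sub_le ((D.Pc5 (D.cc j) x).1 - D.cc k) ((D.Pc5 (D.cc j) x).1 - D.cc j)
        have e : ((D.Pc5 (D.cc j) x).1 - D.cc k) - ((D.Pc5 (D.cc j) x).1 - D.cc j)
          = D.cc j - D.cc k := by ring
        rw [e, h1] at h2'
        have h3 : D.p/10 ≤ |x.2| := by linarith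
        have h4 := D.Pc5_exact (c := D.cc j) h3
        obtain ⟨x', h6, h7⟩ := key (D.Pc5 (D.cc j) x).1 (by linarith) hW2
        exact ⟨x', h6, by rw [h7, ← h4]⟩
  · rintro ⟨x, hx, rfl⟩
    refine ⟨?_, ?_, ?_⟩
    · exact Or.inr ⟨k, x, hx.le, rfl⟩
    · rcases lt_or_ge |x.2| (D.p/10) with h | h
      · have := D.Pc5_small hc h
        nlinarith
      · rw [D.Pc5_exact h, norm_pow]
        have := D.norm_le_of_near5 hc (z := (D.Pc5 (D.cc k) x).1) (by rw [D.Pc5_norm]; exact hx.le)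
        have h0 := norm_nonneg (D.Pc5 (D.cc k) x).1
        nlinarith
    · rw [D.Pc5_norm]; exact hx

/-- the discs cover the low zone -/
theorem disc_cover {z : ℂ} (hz : ‖z‖^2 ≤ 36/25 * D.p^2) : ∃ k : Fin 4, ‖z - D.cc k‖ < 5/4 * D.p := by
  have hp := D.hp
  have hp2 : 0 < D.p^2 := by positivity
  rw [← Complex.normSq_eq_norm_sq, Complex.normSq_apply] at hz
  have fin : ∀ k : Fin 4, ∀ t : ℝ, 0 ≤ t → z.re * z.re + z.im * z.im ≤ 2 * t^2 →
      ‖z - D.cc k‖^2 = (z.re * z.re + z.im * z.im) - 2 * t * D.p + D.p^2 →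
      ‖z - D.cc k‖ < 5/4 * D.p := by
    intro k t ht h1 h2
    apply lt_of_pow_lt_pow_left₀ 2 (by positivity)
    rw [h2]
    rcases le_or_gt t D.p with h | h
    · nlinarith
    · nlinarith
  have e : ∀ k, ‖z - D.cc k‖^2 = (z.re - (D.cc k).re) * (z.re - (D.cc k).re)
      + (z.im - (D.cc k).im) * (z.im - (D.cc k).im) := by
    intro k
    rw [← Complex.normSq_eq_norm_sq, Complex.normSq_apply, Complex.sub_re, Complex.sub_im]
  rcases le_or_gt |z.im| |z.re| with h | h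
  · have hs : z.im^2 ≤ z.re^2 := sq_le_sq.2 h
    rcases le_or_gt 0 z.re with h0 | h0
    · refine ⟨0, fin 0 z.re h0 (by nlinarith) ?_⟩
      rw [e, D.cc0]; simp; ring
    · refine ⟨2, fin 2 (-z.re) (by linarith) (by nlinarith) ?_⟩
      rw [e, D.cc2]; simp; ring
  · have hs : z.re^2 ≤ z.im^2 := sq_le_sq.2 h.le
    rcases le_or_gt 0 z.im with h0 | h0
    · refine ⟨1, fin 1 z.im h0 (by nlinarith) ?_⟩
      rw [e, D.cc1]; simp; ring
    · refine ⟨3, fin 3 (-z.im) (by linarith) (by nlinarith) ?_⟩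
      rw [e, D.cc3]; simp; ring

/-- the open sets cover the surface -/
theorem cover5 {y : ℂ × ℂ} (hy : y ∈ D.M5) :
    y ∈ D.W0 ∨ ∃ k, y ∈ D.Wc5 (D.cc k) := by
  have hp := D.hp
  have hp2 : 0 < D.p^2 := by positivity
  by_cases hW : y ∈ D.W0
  · exact Or.inl hW
  right
  have hW' : ‖y.2‖ ≤ 36/25 * D.p^2 := not_lt.1 hW
  have h9 : ‖y.2‖ < 9 * D.p^2 := by nlinarith
  -- exact points
  have key : y.2 = y.1^2 → ∃ k, y ∈ D.Wc5 (D.cc k) := by
    intro h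
    have h1 : ‖y.1‖^2 ≤ 36/25 * D.p^2 := by rw [← norm_pow, ← h]; exact hW'
    obtain ⟨k, hk⟩ := D.disc_cover h1
    exact ⟨k, h9, hk⟩
  rcases hy with ⟨x, hx, rfl⟩ | ⟨k, x, hx, rfl⟩
  · exact key (D.P0_exact hx h9.le)
  · rcases lt_or_ge |x.2| (D.p/10) with h | h
    · refine ⟨k, h9, ?_⟩
      rw [D.Pc5_norm]; linarith
    · exact key (D.Pc5_exact h)

/-- low points on the surface that lie above the crosscaps are exact. -/
theorem exact_low5 {y : ℂ × ℂ} (hy : y ∈ D.M5) (h0 : y ∈ D.W0) (h9 : ‖y.2‖ < 9 * D.p^2) :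
    y.2 = y.1^2 := by
  obtain ⟨x, hx, rfl⟩ := (D.mem_W05_iff y).1 ⟨hy, h0⟩
  exact D.P0_exact hx.le h9.le

end N3D

/-- compactness of the closed band -/
theorem Prof.compact5 {A B : ℝ → ℝ} {ρ : ℝ} (h : Prof A B ρ) (c : ℂ) :
    IsCompact {y | ∃ x : ℝ × ℝ, |x.2| ≤ ρ ∧ Ph5 c A B x = y} := by
  have h1 : {y | ∃ x : ℝ × ℝ, |x.2| ≤ ρ ∧ Ph5 c A B x = y} =
      Ph5 c A B '' (Icc 0 (2*π) ×ˢ Icc (-ρ) ρ) := by
    ext y
    constructor
    · rintro ⟨x, hx, rfl⟩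
      obtain ⟨n, hn, -⟩ := existsUnique_add_zsmul_mem_Ico (show (0:ℝ) < 2 * π by positivity) x.1 0
      rw [zsmul_eq_mul, zero_add] at hn
      refine ⟨(x.1 + n * (2 * π), x.2), ⟨⟨hn.1, hn.2.le⟩, abs_le.1 hx⟩, ?_⟩
      have e : ∀ m : ℤ, cis (m * (2 * π)) = 1 := by
        intro m
        unfold cis
        rw [Complex.exp_eq_one_iff]
        exact ⟨m, by push_cast; ring⟩
      have e1 : cis (x.1 + n * (2 * π)) = cis x.1 := by rw [cis_add, e, mul_one]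
      have e2 : cis (2 * (x.1 + n * (2 * π))) = cis (2 * x.1) := by
        rw [cis_two_mul, e1, cis_two_mul]
      simp only [Ph5, e1, e2]
    · rintro ⟨x, hx, rfl⟩
      exact ⟨x, abs_le.2 hx.2, rfl⟩
  rw [h1]
  exact (isCompact_Icc.prod isCompact_Icc).image h.continuous5

theorem N3D.M5_compact (D : N3D) : IsCompact D.M5 := by
  apply IsCompact.union (D.prof0.compact 0)
  have : {y | ∃ k : Fin 4, ∃ x : ℝ × ℝ, |x.2| ≤ 5/4 * D.p ∧ D.Pc5 (D.cc k) x = y}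
      = ⋃ k : Fin 4, {y | ∃ x : ℝ × ℝ, |x.2| ≤ 5/4 * D.p ∧ D.Pc5 (D.cc k) x = y} := by
    ext y; simp
  rw [this]
  exact isCompact_iUnion fun k => D.profc5.compact5 (D.cc k)

end Pool.Agent.Helper331
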