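import Pool.Agent.H236N5.Surf

set_option autoImplicit false

open Real Set Filter Topology
open scoped ContDiff

namespace Pool.Agent.Helper331

namespace N3D

variable (D : N3D) {v0 v1 v2 v3 : ℝ}

theorem ht_Pc5 (c : ℂ) (s a : ℝ) : ht v0 v1 v2 v3 (D.Pc5 c (s, a)) = ht v0 v1 v2 v3 (c, c^2) +
    (((v0 + 2 * (c.re * v2 + c.im * v3)) * cos s + (v1 + 2 * (c.re * v3 - c.im * v2)) * sin s) * a
      + (v2 * cos (2 * s) + v3 * sin (2 * s)) * D.g a) := by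
  rw [ht, ht, D.Pc5_fst, D.Pc5_snd]
  simp only
  have e1 : (c + a * cis s).re = c.re + a * cos s := by
    rw [Complex.add_re, Complex.re_ofReal_mul, cis_re]
  have e2 : (c + a * cis s).im = c.im + a * sin s := by
    rw [Complex.add_im, Complex.im_ofReal_mul, cis_im]
  have e0 : c^2 + 2 * c * (a * cis s) + D.g a * cis (2 * s)
      = c^2 + ((2 * a : ℝ) : ℂ) * (c * cis s) + (D.g a : ℂ) * cis (2 * s) := by
    push_cast; ring
  have e3 : (c^2 + 2 * c * (a * cis s) + D.g a * cis (2 * s)).re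
      = (c^2).re + 2 * a * (c.re * cos s - c.im * sin s) + D.g a * cos (2 * s) := by
    rw [e0, Complex.add_re, Complex.add_re, Complex.re_ofReal_mul, Complex.re_ofReal_mul, cis_re,
      Complex.mul_re, cis_re, cis_im]
  have e4 : (c^2 + 2 * c * (a * cis s) + D.g a * cis (2 * s)).im
      = (c^2).im + 2 * a * (c.re * sin s + c.im * cos s) + D.g a * sin (2 * s) := by
    rw [e0, Complex.add_im, Complex.add_im, Complex.im_ofReal_mul, Complex.im_ofReal_mul, cis_im,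
      Complex.mul_im, cis_re, cis_im]
  rw [e1, e2, e3, e4]
  ring

theorem Pc5_continuous (c : ℂ) : Continuous (D.Pc5 c) := D.profc5.continuous5

theorem P0_mem5 {x : ℝ × ℝ} (hx : |x.2| ≤ D.r0) : D.P0 x ∈ D.M5 := Or.inl ⟨x, hx, rfl⟩

theorem Pc5_mem (k : Fin 4) {x : ℝ × ℝ} (hx : |x.2| ≤ 5/4 * D.p) : D.Pc5 (D.cc k) x ∈ D.M5 :=
  Or.inr ⟨k, x, hx, rfl⟩

/-- no local maximum on a crosscap band -/
theorem locmax_c5 (k : Fin 4) {x : ℝ × ℝ} (hx : |x.2| < 5/4 * D.p)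
    (hm : IsLocalMaxOn (ht v0 v1 v2 v3) D.M5 (D.Pc5 (D.cc k) x)) :
    v0 = 0 ∧ v1 = 0 ∧ v2 = 0 ∧ v3 = 0 := by
  obtain ⟨s, a⟩ := x
  set c := D.cc k with hcdef
  have h1 : IsLocalMax (fun x => ht v0 v1 v2 v3 (D.Pc5 c x)) (s, a) := by
    have h2 : Tendsto (D.Pc5 c) (𝓝 (s, a)) (𝓝[D.M5] (D.Pc5 c (s, a))) := by
      apply tendsto_nhdsWithin_of_tendsto_nhds_of_eventually_within _
        (D.Pc5_continuous c).continuousAt
      have h3 : ∀ᶠ x : ℝ × ℝ in 𝓝 (s, a), |x.2| < 5/4 * D.p :=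
        (continuous_snd.abs).continuousAt.eventually (gt_mem_nhds hx)
      filter_upwards [h3] with x hx
      exact D.Pc5_mem k hx.le
    exact h2.eventually hm
  have h2 : IsLocalMax (fun p : ℝ × ℝ => ((v0 + 2 * (c.re * v2 + c.im * v3)) * cos p.1
      + (v1 + 2 * (c.re * v3 - c.im * v2)) * sin p.1) * p.2
      + (v2 * cos (2 * p.1) + v3 * sin (2 * p.1)) * D.g p.2) (s, a) := by
    filter_upwards [h1] with x hx
    obtain ⟨s', a'⟩ := x
    rw [D.ht_Pc5, D.ht_Pc5] at hx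
    linarith
  have h3 := claimBgen (A := fun a => a) (A1 := fun _ => 1) (A2 := fun _ => 0) (B := D.g)
    (B1 := D.g1) (B2 := D.g2) (fun t => hasDerivAt_id t) (fun t => hasDerivAt_const t 1)
    D.hg1 D.hg2 h2 one_pos (D.hgp a) (by have := D.hg2p a; linarith)
    (by have := D.hgz a; linarith)
  obtain ⟨h4, h5, h6, h7⟩ := h3
  refine ⟨?_, ?_, h6, h7⟩
  · rw [h6, h7] at h4; linarith
  · rw [h6, h7] at h5; linarith

theorem locmax5_0 {s t : ℝ} (hx : |π - t| < D.r0)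
    (hm : IsLocalMaxOn (ht v0 v1 v2 v3) D.M5 (D.P0 (s, π - t))) :
    IsLocalMax (hk v0 v1 v2 v3 D.k) (s, t) := by
  have hcont : Continuous (fun x : ℝ × ℝ => (x.1, π - x.2)) := by fun_prop
  have h2 : Tendsto (fun x : ℝ × ℝ => D.P0 (x.1, π - x.2)) (𝓝 (s, t))
      (𝓝[D.M5] (D.P0 (s, π - t))) := by
    apply tendsto_nhdsWithin_of_tendsto_nhds_of_eventually_within _
      ((D.P0_continuous.comp hcont).continuousAt (x := (s, t)))
    have h4 : Continuous (fun x : ℝ × ℝ => |π - x.2|) := by fun_prop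
    have h3 : ∀ᶠ x : ℝ × ℝ in 𝓝 (s, t), |π - x.2| < D.r0 :=
      h4.continuousAt.eventually (gt_mem_nhds hx)
    filter_upwards [h3] with x hx
    exact D.P0_mem5 (x := (x.1, π - x.2)) (le_of_lt hx)
  have h3 := h2.eventually hm
  filter_upwards [h3] with x hx
  obtain ⟨s', t'⟩ := x
  simp only at hx
  rw [D.ht_P0, D.ht_P0] at hx
  exact hx

theorem locmax5 {y : ℂ × ℂ} (hy : y ∈ D.M5) (hm : IsLocalMaxOn (ht v0 v1 v2 v3) D.M5 y)
    (hv : ¬ (v0 = 0 ∧ v1 = 0 ∧ v2 = 0 ∧ v3 = 0)) :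
    ∃ s t, cos t ≤ 1/3 ∧ D.P0 (s, π - t) = y ∧ IsLocalMax (hk v0 v1 v2 v3 D.k) (s, t) := by
  rcases D.cover5 hy with h | ⟨k, h⟩
  · obtain ⟨⟨s, a⟩, hx, rfl⟩ := (D.mem_W05_iff y).1 ⟨hy, h⟩
    have e : a = π - (π - a) := by ring
    have hx' : |π - (π - a)| < D.r0 := by rw [← e]; exact hx
    have hm' : IsLocalMaxOn (ht v0 v1 v2 v3) D.M5 (D.P0 (s, π - (π - a))) := by
      rw [← e]; exact hm
    have hl := D.locmax5_0 hx' hm'
    refine ⟨s, π - a, ?_, by rw [← e], hl⟩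
    by_contra hcon
    push Not at hcon
    apply hv
    set t := π - a with ht
    have hct : cos t < 1 := by
      have h1 := (D.lt_r0_iff (a := a) ((le_of_lt hx).trans D.r0_lt.le)).1 hx
      rw [ht, cos_pi_sub]
      linarith [D.C0_lt_one]
    have hCS := sin_sq_add_cos_sq t
    obtain ⟨q1, q2⟩ := D.hkc (cos t) (sin t) hCS hcon hct
    apply claimBgen (A := fun t => sin t / 2) (A1 := fun t => cos t / 2)
      (A2 := fun t => -sin t / 2) (B := fun t => (1 - cos t) / 2 + D.k (cos t))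
      (B1 := fun t => sin t / 2 - D.k1 (cos t) * sin t)
      (B2 := fun t => cos t / 2 - D.k1 (cos t) * cos t + D.k2 (cos t) * sin t ^ 2)
      hasDerivAt_A hasDerivAt_A1 (hasDerivAt_B D.hk1) (hasDerivAt_B1 D.hk2) hl
    · linarith
    · have h5 := D.hkl (cos t)
      nlinarith
    · have e : (cos t/2) * (cos t / 2 - D.k1 (cos t) * cos t + D.k2 (cos t) * sin t^2)
        - (-sin t/2) * (sin t / 2 - D.k1 (cos t) * sin t)
        = (1/2) * ((1/2 - D.k1 (cos t)) + cos t * sin t^2 * D.k2 (cos t)) := by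
        linear_combination (1/2 - D.k1 (cos t))/2 * hCS
      rw [e]; linarith
    · have e : 4 * (cos t / 2) * ((1 - cos t) / 2 + D.k (cos t))
          - (sin t/2) * (sin t / 2 - D.k1 (cos t) * sin t)
        = (1 - cos t) * (3 * cos t - 1) / 4 + 2 * cos t * D.k (cos t)
          + D.k1 (cos t) * sin t^2 / 2 := by
        linear_combination (-1/4) * hCS
      rw [e]; exact q2
  · obtain ⟨x, hx, rfl⟩ := (D.mem_Wc5_iff k y).1 ⟨hy, h⟩
    exact absurd (D.locmax_c5 k hx hm) hv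

theorem P0_mem5_of_cos {s a : ℝ} (h : -cos a ≤ D.C0) : D.P0 (s, a) ∈ D.M5 := by
  obtain ⟨n, hn, -⟩ := existsUnique_add_zsmul_mem_Ioc (show (0:ℝ) < 2 * π by positivity) a (-π)
  rw [zsmul_eq_mul] at hn
  rw [← D.P0_periodic s a n]
  apply D.P0_mem5
  have h1 : |a + n * (2 * π)| ≤ π := by
    rw [abs_le]; constructor <;> linarith [hn.1, hn.2]
  change |a + n * (2 * π)| ≤ D.r0
  rw [D.le_r0_iff h1, Real.cos_add_int_mul_two_pi]
  exact h

theorem norm_re_sub {z c : ℂ} : ‖z - c‖^2 = (z.re - c.re) * (z.re - c.re)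
      + (z.im - c.im) * (z.im - c.im) := by
  rw [← Complex.normSq_eq_norm_sq, Complex.normSq_apply, Complex.sub_re, Complex.sub_im]

/-- a point of the crescent -/
theorem exists_crescent (k : Fin 4) : ∃ z : ℂ, 6/5 * D.p < ‖z‖ ∧ ‖z‖ ≤ 3 * D.p ∧
    D.p/10 ≤ ‖z - D.cc k‖ ∧ ‖z - D.cc k‖ < 5/4 * D.p := by
  have hp := D.hp
  refine ⟨((3/2 : ℝ) : ℂ) * D.cc k, ?_, ?_, ?_, ?_⟩
  · rw [norm_mul, D.norm_cc, Complex.norm_real, Real.norm_of_nonneg (by norm_num)]; linarith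
  · rw [norm_mul, D.norm_cc, Complex.norm_real, Real.norm_of_nonneg (by norm_num)]; linarith
  all_goals
    have e : ((3/2 : ℝ) : ℂ) * D.cc k - D.cc k = ((1/2 : ℝ) : ℂ) * D.cc k := by
      push_cast; ring
    rw [e, norm_mul, D.norm_cc, Complex.norm_real, Real.norm_of_nonneg (by norm_num)]
    linarith

theorem M5_preconnected : IsPreconnected D.M5 := by
  have hconv : ∀ ρ : ℝ, IsPreconnected {x : ℝ × ℝ | |x.2| ≤ ρ} := by
    intro ρ
    have : {x : ℝ × ℝ | |x.2| ≤ ρ} = univ ×ˢ Icc (-ρ) ρ := by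
      ext x; simp [abs_le]
    rw [this]
    exact isPreconnected_univ.prod isPreconnected_Icc
  have himg : ∀ (f : ℝ × ℝ → ℂ × ℂ) (ρ : ℝ), Continuous f →
      IsPreconnected {y | ∃ x : ℝ × ℝ, |x.2| ≤ ρ ∧ f x = y} := fun f ρ hf =>
    (hconv ρ).image f hf.continuousOn
  have hp := D.hp
  have h0 := himg _ D.r0 D.P0_continuous
  have hx0 : |((0, 0) : ℝ × ℝ).2| ≤ D.r0 := by simpa using D.r0_nonneg
  apply isPreconnected_of_forall (D.P0 (0, 0))
  rintro y (hy | ⟨k, x, hx, rfl⟩)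
  · exact ⟨_, fun z hz => Or.inl hz, ⟨(0, 0), hx0, rfl⟩, hy, h0⟩
  · obtain ⟨z, hz1, hz2, hz3, hz4⟩ := D.exists_crescent k
    obtain ⟨x', h6, h7, h8⟩ := D.exact0 hz1.le hz2
    refine ⟨{y | ∃ x : ℝ × ℝ, |x.2| ≤ D.r0 ∧ D.P0 x = y} ∪
      {y | ∃ x : ℝ × ℝ, |x.2| ≤ 5/4 * D.p ∧ D.Pc5 (D.cc k) x = y}, ?_, ?_, ?_, ?_⟩
    · rintro w (hw | ⟨x, hx, rfl⟩)
      · exact Or.inl hw
      · exact Or.inr ⟨k, x, hx, rfl⟩
    · exact Or.inl ⟨(0, 0), hx0, rfl⟩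
    · exact Or.inr ⟨x, hx, rfl⟩
    · apply IsPreconnected.union (z, z^2) _ _ h0 (himg _ _ (D.Pc5_continuous _))
      · exact ⟨x', h6, h7⟩
      · refine ⟨_, ?_, D.exactc5 hz3⟩
        simp only
        rw [abs_of_nonneg (norm_nonneg _)]
        exact hz4.le

/-- Tightness: every closed superlevel set is connected. -/
theorem tight_closed5 (v0 v1 v2 v3 c : ℝ) : IsPreconnected {y | y ∈ D.M5 ∧ c ≤ ht v0 v1 v2 v3 y} := by
  by_cases hv : v0 = 0 ∧ v1 = 0 ∧ v2 = 0 ∧ v3 = 0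
  · obtain ⟨rfl, rfl, rfl, rfl⟩ := hv
    have h0 : ∀ y, ht 0 0 0 0 y = 0 := fun y => by simp [ht]
    by_cases hc : c ≤ 0
    · have : {y | y ∈ D.M5 ∧ c ≤ ht 0 0 0 0 y} = D.M5 := by
        ext y; simp [h0, hc]
      rw [this]; exact D.M5_preconnected
    · have : {y | y ∈ D.M5 ∧ c ≤ ht 0 0 0 0 y} = ∅ := by
        ext y; simp [h0, hc]
      rw [this]; exact isPreconnected_empty
  set S := {y | y ∈ D.M5 ∧ c ≤ ht v0 v1 v2 v3 y} with hS
  have hcont := ht_continuous v0 v1 v2 v3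
  have hScl : IsClosed {y | c ≤ ht v0 v1 v2 v3 y} := isClosed_le continuous_const hcont
  have hSc : IsCompact S := D.M5_compact.inter_right hScl
  rw [isPreconnected_closed_iff]
  intro T1 T2 hT1 hT2 hST hne1 hne2
  by_contra hcon
  rw [not_nonempty_iff_eq_empty] at hcon
  have hdis : ∀ y, y ∈ S → y ∈ T1 → y ∈ T2 → False := by
    intro y h1 h2 h3
    have : y ∈ S ∩ (T1 ∩ T2) := ⟨h1, h2, h3⟩
    rw [hcon] at this
    exact this
  have key : ∀ T T' : Set (ℂ × ℂ), IsClosed T → IsClosed T' → S ⊆ T ∪ T' →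
      (S ∩ T).Nonempty → (∀ y, y ∈ S → y ∈ T → y ∈ T' → False) →
      ∃ y ∈ S ∩ T, IsLocalMaxOn (ht v0 v1 v2 v3) D.M5 y := by
    intro T T' hT hT' hTT hne hd
    obtain ⟨y, hy, hmax⟩ := (hSc.inter_right hT).exists_isMaxOn hne hcont.continuousOn
    refine ⟨y, hy, ?_⟩
    have hyT' : y ∉ T' := fun h => hd y hy.1 hy.2 h
    have hnb1 : T'ᶜ ∈ 𝓝[D.M5] y := mem_nhdsWithin_of_mem_nhds (hT'.isOpen_compl.mem_nhds hyT')
    have hnb2 : D.M5 ∈ 𝓝[D.M5] y := self_mem_nhdsWithin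
    filter_upwards [hnb1, hnb2] with z hz1 hz2
    have hz : z ∈ T'ᶜ ∧ z ∈ D.M5 := ⟨hz1, hz2⟩
    by_cases hcz : c ≤ ht v0 v1 v2 v3 z
    · have hzS : z ∈ S := ⟨hz.2, hcz⟩
      exact hmax ⟨hzS, (hTT hzS).resolve_right hz.1⟩
    · push Not at hcz
      exact hcz.le.trans hy.1.2
  obtain ⟨y1, hy1, hm1⟩ := key T1 T2 hT1 hT2 hST hne1 hdis
  obtain ⟨y2, hy2, hm2⟩ := key T2 T1 hT2 hT1 (by rw [union_comm]; exact hST) hne2
    (fun y h1 h2 h3 => hdis y h1 h3 h2)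
  obtain ⟨s1, t1, hc1, he1, hl1⟩ := D.locmax5 hy1.1.1 hm1 hv
  obtain ⟨s2, t2, hc2, he2, hl2⟩ := D.locmax5 hy2.1.1 hm2 hv
  have q1 := claimA D.hk0 (by linarith) hl1
  have q2 := claimA D.hk0 (by linarith) hl2
  have norm1 : ∀ s t : ℝ, (sin (t/2) * cos s)^2 + (sin (t/2) * sin s)^2 + (cos (t/2))^2 = 1 := by
    intro s t
    have h1 := sin_sq_add_cos_sq s
    have h2 := sin_sq_add_cos_sq (t/2)
    linear_combination (sin (t/2))^2 * h1 + h2
  have heq : hk v0 v1 v2 v3 D.k (s2, t2) = hk v0 v1 v2 v3 D.k (s1, t1) := by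
    apply le_antisymm
    · have := q1 (sin (t2/2) * cos s2) (sin (t2/2) * sin s2) (cos (t2/2))
      rw [norm1, mul_one, ← hk_eq_qf v0 v1 v2 v3 D.k s2 t2 (D.hk0 _ (by linarith))] at this
      exact this
    · have := q2 (sin (t1/2) * cos s1) (sin (t1/2) * sin s1) (cos (t1/2))
      rw [norm1, mul_one, ← hk_eq_qf v0 v1 v2 v3 D.k s1 t1 (D.hk0 _ (by linarith))] at this
      exact this
  have hlc : c ≤ hk v0 v1 v2 v3 D.k (s1, t1) := by
    rw [← D.ht_P0, he1]; exact hy1.1.2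
  have hPc : Continuous (fun x : ℝ × ℝ => D.P0 (x.1, π - x.2)) :=
    D.P0_continuous.comp (by fun_prop)
  have hinv : ∀ E : Set (ℂ × ℂ), KInv ((fun x : ℝ × ℝ => D.P0 (x.1, π - x.2)) ⁻¹' E) := by
    intro E
    constructor
    · intro s t
      have e : D.P0 (s + π, π - -t) = D.P0 (s, π - t) := by
        have h1 := D.prof0.flip (c := 0) (s, π - t)
        have h2 := D.P0_periodic (s + π) (-(π - t)) 1
        have h3 : -(π - t) + ((1:ℤ):ℝ) * (2 * π) = π - -t := by push_cast; ring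
        rw [h3] at h2
        rw [h2]
        exact h1
      change D.P0 (s, π - t) ∈ E ↔ D.P0 (s + π, π - -t) ∈ E
      rw [e]
    · intro s t
      have e : D.P0 (s, π - (t + 2 * π)) = D.P0 (s, π - t) := by
        have h2 := D.P0_periodic s (π - t) (-1)
        have h3 : (π - t) + ((-1:ℤ):ℝ) * (2 * π) = π - (t + 2 * π) := by push_cast; ring
        rw [h3] at h2
        exact h2
      change D.P0 (s, π - t) ∈ E ↔ D.P0 (s, π - (t + 2 * π)) ∈ E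
      rw [e]
  refine tpp_gen (A := (fun x : ℝ × ℝ => D.P0 (x.1, π - x.2)) ⁻¹' (S ∩ T1))
    (B := (fun x : ℝ × ℝ => D.P0 (x.1, π - x.2)) ⁻¹' (S ∩ T2)) D.hk0
    ((hSc.isClosed.inter hT1).preimage hPc) ((hSc.isClosed.inter hT2).preimage hPc)
    (hinv _) (hinv _) ?_ ?_ q1 (qf_pos q1 hv) (sA := s1) (tA := t1) (sB := s2) (tB := t2)
    ?_ ?_ hc1 hc2 rfl heq
  · rw [Set.disjoint_left]
    intro x h1 h2
    exact hdis _ h1.1 h1.2 h2.2
  · intro s t hct hh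
    have hM : D.P0 (s, π - t) ∈ D.M5 := by
      apply D.P0_mem5_of_cos
      rw [cos_pi_sub, neg_neg]
      have := D.C_lt_C0; have := D.hC; linarith
    have hSm : D.P0 (s, π - t) ∈ S := ⟨hM, by
      change c ≤ ht v0 v1 v2 v3 (D.P0 (s, π - t))
      rw [D.ht_P0, hh]; exact hlc⟩
    rcases hST hSm with h | h
    · exact Or.inl ⟨hSm, h⟩
    · exact Or.inr ⟨hSm, h⟩
  · change D.P0 (s1, π - t1) ∈ S ∩ T1
    rw [he1]; exact hy1
  · change D.P0 (s2, π - t2) ∈ S ∩ T2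
    rw [he2]; exact hy2

/-- every open superlevel set is connected. -/
theorem tight_open5 (v0 v1 v2 v3 c : ℝ) : IsPreconnected {y | y ∈ D.M5 ∧ c < ht v0 v1 v2 v3 y} := by
  apply isPreconnected_of_forall_pair
  intro y hy y' hy'
  refine ⟨{z | z ∈ D.M5 ∧ min (ht v0 v1 v2 v3 y) (ht v0 v1 v2 v3 y') ≤ ht v0 v1 v2 v3 z},
    ?_, ⟨hy.1, min_le_left _ _⟩, ⟨hy'.1, min_le_right _ _⟩, D.tight_closed5 _ _ _ _ _⟩
  intro z hz
  exact ⟨hz.1, lt_of_lt_of_le (lt_min hy.2 hy'.2) hz.2⟩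

/-- the surface is substantial -/
theorem substantial5 {v0 v1 v2 v3 c : ℝ} (h : ∀ y ∈ D.M5, ht v0 v1 v2 v3 y = c) :
    v0 = 0 ∧ v1 = 0 ∧ v2 = 0 ∧ v3 = 0 := by
  have hp := D.hp
  apply D.locmax_c5 0 (x := (0, 0)) (by simpa using hp)
  have h0 : D.Pc5 (D.cc 0) (0, 0) ∈ D.M5 := D.Pc5_mem 0 (by simpa using hp.le)
  have : ∀ᶠ z in 𝓝[D.M5] (D.Pc5 (D.cc 0) (0, 0)), z ∈ D.M5 := self_mem_nhdsWithin
  filter_upwards [this] with z hz
  rw [h z hz, h _ h0]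

end N3D

end Pool.Agent.Helper331
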